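import Pool.Agent.Helper60.PCP.TwoGen

/-!
The Frattini subgroup of a finite `p`-group is fully invariant. (Problem MP_47f3f4_co.)
-/

namespace Pool.Agent.Helper60.PCP

open Pool.Agent.Helper19.PCP
open scoped commutatorElement Classical

/-- A subgroup of prime index is maximal. -/
theorem isCoatom_of_index {G : Type*} [Group G] {p : ℕ} (hp : p.Prime) {H : Subgroup G}
    (h : H.index = p) : IsCoatom H := by
  refine ⟨fun htop => ?_, fun K hK => ?_⟩
  · rw [htop, Subgroup.index_top] at h
    exact hp.one_lt.ne h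
  · have h1 := Subgroup.relIndex_mul_index hK.le
    rw [h] at h1
    have h2 : K.index ∣ p := ⟨_, by rw [mul_comm]; exact h1.symm⟩
    rcases (Nat.dvd_prime hp).mp h2 with h3 | h3
    · exact Subgroup.index_eq_one.mp h3
    · rw [h3] at h1
      have h4 : H.relIndex K = 1 := by
        have := hp.pos
        exact Nat.eq_of_mul_eq_mul_right this (by rw [h1, one_mul])
      exact absurd (Subgroup.relIndex_eq_one.mp h4) (not_le_of_gt hK)

/-- An elementary abelian group has trivial Frattini subgroup. -/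
theorem frattini_elem {Q : Type*} [CommGroup Q] [Finite Q] {p : ℕ} (hp : p.Prime)
    (h : ∀ x : Q, x ^ p = 1) : frattini Q = ⊥ := by
  rw [eq_bot_iff]
  intro x hx
  rw [Subgroup.mem_bot]
  by_contra hx1
  obtain ⟨χ, hχ⟩ := CommGroup.exists_apply_ne_one_of_hasEnoughRootsOfUnity Q ℂ hx1
  have hfin : Finite χ.range := Set.finite_range χ
  have hcyc : IsCyclic χ.range := inferInstance
  have hcard : Nat.card χ.range = p := by
    have h1 : Nat.card χ.range ∣ p := by
      rw [← IsCyclic.exponent_eq_card]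
      apply Monoid.exponent_dvd_of_forall_pow_eq_one
      rintro ⟨_, y, rfl⟩
      apply Subtype.ext
      change (χ y) ^ p = 1
      rw [← map_pow, h, map_one]
    rcases (Nat.dvd_prime hp).mp h1 with h2 | h2
    · exfalso
      rw [Subgroup.card_eq_one] at h2
      have : χ x ∈ χ.range := ⟨x, rfl⟩
      rw [h2, Subgroup.mem_bot] at this
      exact hχ this
    · exact h2
  have hidx : χ.ker.index = p := by rw [Subgroup.index_ker, hcard]
  have h3 := frattini_le_coatom (isCoatom_of_index hp hidx) hx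
  exact hχ h3

variable {P : Type*} [Group P]

/-- In a finite `p`-group the Frattini subgroup contains all `p`-th powers. -/
theorem pow_mem_frattini [Finite P] {p : ℕ} [Fact p.Prime] (hP : IsPGroup p P) (x : P) :
    x ^ p ∈ frattini P := by
  have hp := (Fact.out : p.Prime)
  have hnil : Group.IsNilpotent P := hP.isNilpotent
  rw [frattini, Order.radical]
  simp only [Subgroup.mem_iInf]
  intro M hM
  have hM' : IsCoatom M := hM
  have hnor : M.Normal := Subgroup.NormalizerCondition.normal_of_coatom M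
    Group.normalizerCondition_of_isNilpotent hM'
  by_contra hx
  -- `M ⟨x ^ p⟩ = P`, hence `x ∈ M ⟨x ^ p⟩`
  have h1 : Subgroup.zpowers (x ^ p) ⊔ M = ⊤ := by
    apply hM'.2
    refine lt_of_le_of_ne le_sup_right ?_
    intro he
    apply hx
    rw [he]
    exact Subgroup.mem_sup_left (Subgroup.mem_zpowers _)
  have h2 : x ∈ Subgroup.zpowers (x ^ p) ⊔ M := by rw [h1]; exact Subgroup.mem_top _
  obtain ⟨y, hy, m, hm, hym⟩ := Subgroup.mem_sup_of_normal_right.mp h2
  obtain ⟨j, rfl⟩ := Subgroup.mem_zpowers_iff.mp hy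
  -- in the quotient `x̄ = x̄ ^ (p j)`, and `x̄` has `p`-power order
  have hQ : IsPGroup p (P ⧸ M) := hP.to_quotient M
  have h3 : ((x : P) : P ⧸ M) = (x : P ⧸ M) ^ ((p : ℤ) * j) := by
    conv_lhs => rw [← hym, QuotientGroup.mk_mul_of_mem _ hm]
    rw [QuotientGroup.mk_zpow, QuotientGroup.mk_pow, zpow_mul, zpow_natCast]
  have h4 : ∀ k : ℕ, (x : P ⧸ M) = (x : P ⧸ M) ^ (((p : ℤ) * j) ^ k) := by
    intro k
    induction k with
    | zero => rw [pow_zero, zpow_one]
    | succ k ih =>
      rw [pow_succ, zpow_mul, ← ih]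
      exact h3
  obtain ⟨k, hk⟩ := hQ (x : P ⧸ M)
  have h5 : (x : P ⧸ M) = 1 := by
    rw [h4 k, mul_pow, zpow_mul]
    have : (x : P ⧸ M) ^ ((p : ℤ) ^ k) = 1 := by
      have e : ((p : ℤ) ^ k) = ((p ^ k : ℕ) : ℤ) := by push_cast; rfl
      rw [e, zpow_natCast, hk]
    rw [this, one_zpow]
  exact hx (pow_mem ((QuotientGroup.eq_one_iff x).mp h5) p)

/-- the subgroup generated by all `p`-th powers and commutators -/
def Vp (P : Type*) [Group P] (p : ℕ) : Subgroup P :=
  Subgroup.closure ({x | ∃ y : P, y ^ p = x} ∪ {x | ∃ y z : P, ⁅y, z⁆ = x})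

theorem Vp_inv (p : ℕ) (f : P →* P) : (Vp P p).map f ≤ Vp P p := by
  unfold Vp
  rw [MonoidHom.map_closure]
  apply Subgroup.closure_mono
  rintro _ ⟨x, hx, rfl⟩
  rcases hx with ⟨y, rfl⟩ | ⟨y, z, rfl⟩
  · exact Or.inl ⟨f y, (map_pow f y p).symm⟩
  · exact Or.inr ⟨f y, f z, (map_commutatorElement f y z).symm⟩

theorem frattini_eq_Vp [Finite P] {p : ℕ} [Fact p.Prime] (hP : IsPGroup p P) :
    frattini P = Vp P p := by
  have hp := (Fact.out : p.Prime)
  apply le_antisymm
  · have hn : (Vp P p).Normal := ⟨fun m hm g => Vp_inv p (MulAut.conj g).toMonoidHom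
      (Subgroup.mem_map_of_mem (MulAut.conj g).toMonoidHom hm)⟩
    let _ : CommGroup (P ⧸ Vp P p) :=
      { (inferInstance : Group (P ⧸ Vp P p)) with
        mul_comm := by
          intro a b
          obtain ⟨x, rfl⟩ := QuotientGroup.mk_surjective a
          obtain ⟨y, rfl⟩ := QuotientGroup.mk_surjective b
          exact (comm_mem_iff (Vp P p) x y).mp (Subgroup.subset_closure (Or.inr ⟨x, y, rfl⟩)) }
    have h1 := frattini_le_comap_frattini_of_surjective (φ := QuotientGroup.mk' (Vp P p))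
      (QuotientGroup.mk'_surjective _)
    have h2 : frattini (P ⧸ Vp P p) = ⊥ := by
      apply frattini_elem hp
      intro a
      obtain ⟨x, rfl⟩ := QuotientGroup.mk_surjective a
      have h3 : ((x ^ p : P) : P ⧸ Vp P p) = 1 := by
        rw [QuotientGroup.eq_one_iff]
        exact Subgroup.subset_closure (Or.inl ⟨x, rfl⟩)
      rw [← h3, QuotientGroup.mk_pow]
    rw [h2, MonoidHom.comap_bot, QuotientGroup.ker_mk'] at h1
    exact h1
  · unfold Vp
    rw [Subgroup.closure_le]
    rintro x (⟨y, rfl⟩ | ⟨y, z, rfl⟩)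
    · exact pow_mem_frattini hP y
    · exact comm_mem_frattini hP y z

theorem frattini_inv [Finite P] {p : ℕ} [Fact p.Prime] (hP : IsPGroup p P) (f : P →* P) :
    (frattini P).map f ≤ frattini P := by
  rw [frattini_eq_Vp hP]
  exact Vp_inv p f

theorem top_inv (f : P →* P) : (⊤ : Subgroup P).map f ≤ ⊤ := le_top

/-- The bound for `d`-generator groups. -/
theorem rank_bound [Finite P] [Nontrivial P] {p d : ℕ} [Fact p.Prime] (hP : IsPGroup p P)
    (hidx : (frattini P).index = p ^ d) : T (P × P) ≤ (p ^ (d + 1) - 1) / (p - 1) := by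
  have hp := (Fact.out : p.Prime)
  have hne : ¬ (⊤ : Subgroup P) ≤ frattini P := by
    intro h
    have h1 : (⊥ : Subgroup P) = ⊤ := by
      apply frattini_nongenerating
      rw [bot_sup_eq]
      exact top_le_iff.mp h
    exact bot_ne_top h1
  have h1 := gen_bound hP (frattini P) ⊤ (frattini_inv hP) top_inv hne
  rw [Subgroup.relIndex_top_right, hidx] at h1
  refine h1.trans ?_
  have h2 : 1 ≤ p ^ d := Nat.one_le_pow _ _ hp.pos
  have h3 : 0 < p - 1 := by have := hp.one_lt; omega
  have h4 : p ^ (d + 1) - 1 = (p ^ d - 1) + (p - 1) * p ^ d := by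
    rw [pow_succ, Nat.sub_mul, one_mul, mul_comm p]
    have : p ^ d ≤ p ^ d * p := Nat.le_mul_of_pos_right _ hp.pos
    omega
  rw [h4, Nat.add_mul_div_left _ _ h3, add_comm]

end Pool.Agent.Helper60.PCP
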