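import Mathlib

/-!
The arithmetic of the universal bound. (Problem MP_47f3f4_co.)
-/

namespace Pool.Agent.Helper60.PCP

/-- `a (q - 1) ≤ Y q` and `c ≤ q` imply `a (c - 1) ≤ Y c`. -/
theorem arith_aux {a Y q c : ℕ} (hc : 1 ≤ c) (hcq : c ≤ q) (h : a * (q - 1) ≤ Y * q) :
    a * (c - 1) ≤ Y * c := by
  obtain ⟨c, rfl⟩ : ∃ d, c = d + 1 := ⟨c - 1, by omega⟩
  obtain ⟨q, rfl⟩ : ∃ d, q = d + 1 := ⟨q - 1, by omega⟩
  simp only [Nat.add_sub_cancel] at h ⊢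
  rcases Nat.le_total a Y with h1 | h1
  · nlinarith
  · obtain ⟨t, rfl⟩ : ∃ t, a = Y + t := ⟨a - Y, by omega⟩
    have : c ≤ q := by omega
    nlinarith

theorem arith_top {p k w n r : ℕ} (hn : n = k + w) (hwk : w ≤ k)
    (hW : r * (p - 1) ≤ (p + 1) * (p ^ w - 1)) (hp : 2 ≤ p) :
    (p - 1) * r ≤ (p + 1 + n % 2) * p ^ (n / 2) := by
  have h1 : p ^ w ≤ p ^ (n / 2) := Nat.pow_le_pow_right (by omega) (by omega)
  calc (p - 1) * r = r * (p - 1) := mul_comm _ _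
    _ ≤ (p + 1) * (p ^ w - 1) := hW
    _ ≤ (p + 1 + n % 2) * p ^ (n / 2) := Nat.mul_le_mul (by omega) (by omega)

theorem arith_zero {p k n r : ℕ} (hp : 2 ≤ p) (hk : 1 ≤ k) (h2k : 2 * k ≤ n / 2)
    (hZ : (r - 1) * (p - 1) ≤ p ^ k * p ^ k - 1) :
    (p - 1) * r ≤ (p + 1 + n % 2) * p ^ (n / 2) := by
  have h1 : p ^ k * p ^ k ≤ p ^ (n / 2) := by
    rw [← pow_add]; exact Nat.pow_le_pow_right (by omega) (by omega)
  have h2 : 1 ≤ p ^ k := Nat.one_le_pow _ _ (by omega)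
  set X := p ^ (n / 2) with hX
  have h3 : (p - 1) * r ≤ (r - 1) * (p - 1) + (p - 1) := by
    rcases r with _ | r
    · simp
    · simp only [Nat.add_sub_cancel]; ring_nf; exact le_rfl
  have h4 : (p + 1) * X ≤ (p + 1 + n % 2) * X := Nat.mul_le_mul_right _ (by omega)
  have hX1 : 1 ≤ X := Nat.one_le_pow _ _ (by omega)
  have h5 : X + p ≤ (p + 1) * X := by
    have h6 := Nat.le_mul_of_pos_right p hX1
    have h7 : (p + 1) * X = p * X + X := by ring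
    omega
  omega

theorem arith_one {p n r : ℕ} (hp : 2 ≤ p) (hn : n = 3)
    (hZ : (r - 1) * (p - 1) ≤ p ^ 1 * p ^ 1 - 1) :
    (p - 1) * r ≤ (p + 1 + n % 2) * p ^ (n / 2) := by
  subst hn
  norm_num at hZ ⊢
  have h3 : (p - 1) * r ≤ (r - 1) * (p - 1) + (p - 1) := by
    rcases r with _ | r
    · simp
    · simp only [Nat.add_sub_cancel]; ring_nf; exact le_rfl
  have h5 : p * p + p ≤ (p + 1 + 1) * p := by nlinarith
  omega

/-- `w = k + 1`, `k ≥ 2` -/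
theorem arith_mid_zero {p k w n r a b c d : ℕ} (hp : 2 ≤ p) (hk : 2 ≤ k) (hw : w = k + 1)
    (hn : n = k + w) (hr : r ≤ a + b + c + d)
    (ha : a * (p ^ k - 1) ≤ p ^ k * p ^ k - 1)
    (hb : b * (p - 1) ≤ p ^ k - 1) (hc : c * (p - 1) ≤ p ^ k - 1)
    (hd : d * (p ^ 2 - 1) ≤ p ^ w - 1) :
    (p - 1) * r ≤ (p + 1 + n % 2) * p ^ (n / 2) := by
  subst hw
  have hn2 : n / 2 = k := by omega
  have hn3 : n % 2 = 1 := by omega
  rw [hn2, hn3]
  have hX : p ^ 2 ≤ p ^ k := Nat.pow_le_pow_right (by omega) hk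
  have hpk : p ^ (k + 1) = p * p ^ k := by ring
  rw [hpk] at hd
  set X := p ^ k with hXdef
  obtain ⟨q, rfl⟩ : ∃ q, p = q + 1 := ⟨p - 1, by omega⟩
  have hX1 : 1 ≤ X := Nat.one_le_pow _ _ (by omega)
  obtain ⟨x, hx⟩ : ∃ x, X = x + 1 := ⟨X - 1, by omega⟩
  clear_value X
  subst hx
  simp only [Nat.add_sub_cancel] at *
  have ha' : a ≤ x + 1 + 1 := by
    have h1 : (x + 1) * (x + 1) - 1 = (x + 1 + 1) * x := by
      have : (x + 1) * (x + 1) = (x + 1 + 1) * x + 1 := by ring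
      omega
    rw [h1] at ha
    have hx0 : 0 < x := by nlinarith
    exact Nat.le_of_mul_le_mul_right ha hx0
  have hd' : d * (q * (q + 2)) ≤ (q + 1) * (x + 1) - 1 := by
    have : (q + 1) ^ 2 - 1 = q * (q + 2) := by
      have : (q + 1) ^ 2 = q * (q + 2) + 1 := by ring
      omega
    rwa [this] at hd
  have hd2 : d * (q * (q + 2)) + 1 ≤ (q + 1) * (x + 1) := by
    have : 1 ≤ (q + 1) * (x + 1) := Nat.one_le_iff_ne_zero.mpr (by positivity)
    omega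
  -- multiply by `p + 1 = q + 2`
  have key : (q + 2) * (q * r) ≤ (q + 2) * ((q + 1 + 1 + 1) * (x + 1)) := by
    have e1 : (q + 2) * (q * r) ≤ (q + 2) * (q * (a + b + c + d)) :=
      Nat.mul_le_mul_left _ (Nat.mul_le_mul_left _ hr)
    have e2 : q * a ≤ q * (x + 1 + 1) := Nat.mul_le_mul_left _ ha'
    nlinarith
  exact Nat.le_of_mul_le_mul_left key (by omega)

/-- `w = k + 2 h + ε`, `1 ≤ h < k`, `ε ≤ 1` -/
theorem arith_mid {p k h ε w n r a b c d : ℕ} (hp : 2 ≤ p) (hh : 1 ≤ h) (hhk : h < k)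
    (hε : ε ≤ 1) (hw : w = k + 2 * h + ε) (hn : n = k + w) (hr : r ≤ a + b + c + d)
    (ha : a * (p ^ (k - (h - 1)) - 1) ≤ p ^ k * p ^ k - 1)
    (hb : b * (p - 1) ≤ p ^ k - 1) (hc : c * (p - 1) ≤ p ^ k - 1)
    (hd : d * (p ^ (h - 1 + 2) - 1) ≤ p ^ w - 1) :
    (p - 1) * r ≤ (p + 1 + n % 2) * p ^ (n / 2) := by
  have hn2 : n / 2 = k + h := by omega
  rw [hn2]
  set Y := p ^ (k + h - 1) with hY
  have hYX : p ^ (k + h) = p * Y := by
    rw [hY, ← pow_succ']; congr 1; omega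
  have hY1 : 1 ≤ Y := Nat.one_le_pow _ _ (by omega)
  -- `a`
  have ha1 : a * (p ^ 2 - 1) ≤ Y * p ^ 2 := by
    apply arith_aux (q := p ^ (k - (h - 1))) (Nat.one_le_pow _ _ (by omega))
    · exact Nat.pow_le_pow_right (by omega) (by omega)
    · refine ha.trans ?_
      have : p ^ k * p ^ k = Y * p ^ (k - (h - 1)) := by
        rw [hY, ← pow_add, ← pow_add]; congr 1; omega
      rw [this]; exact Nat.sub_le _ _
  -- `d`
  have hd1 : d * (p ^ 2 - 1) ≤ (p * Y) * p ^ 2 := by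
    apply arith_aux (q := p ^ (h - 1 + 2)) (Nat.one_le_pow _ _ (by omega))
    · exact Nat.pow_le_pow_right (by omega) (by omega)
    · refine hd.trans ((Nat.sub_le _ _).trans ?_)
      rw [hY, ← pow_succ', ← pow_add]
      exact Nat.pow_le_pow_right (by omega) (by omega)
  have hkY : p ^ k ≤ Y := by
    rw [hY]; exact Nat.pow_le_pow_right (by omega) (by omega)
  have hb1 : b * (p - 1) ≤ Y := hb.trans ((Nat.sub_le _ _).trans hkY)
  have hc1 : c * (p - 1) ≤ Y := hc.trans ((Nat.sub_le _ _).trans hkY)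
  clear_value Y
  rw [hYX]
  have h4 : (p + 1) * (p * Y) ≤ (p + 1 + n % 2) * (p * Y) := Nat.mul_le_mul_right _ (by omega)
  refine le_trans ?_ h4
  obtain ⟨q, rfl⟩ : ∃ q, p = q + 1 := ⟨p - 1, by omega⟩
  simp only [Nat.add_sub_cancel] at *
  have hq1 : 1 ≤ q := by omega
  have e0 : (q + 1) ^ 2 - 1 = q * (q + 2) := by
    have : (q + 1) ^ 2 = q * (q + 2) + 1 := by ring
    omega
  rw [e0] at ha1 hd1
  have key : (q + 2) * (q * r) ≤ (q + 2) * ((q + 1 + 1) * ((q + 1) * Y)) := by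
    have e1 : (q + 2) * (q * r) ≤ (q + 2) * (q * (a + b + c + d)) :=
      Nat.mul_le_mul_left _ (Nat.mul_le_mul_left _ hr)
    have e2 : (q + 2) * (b * q) ≤ (q + 2) * Y := Nat.mul_le_mul_left _ hb1
    have e3 : (q + 2) * (c * q) ≤ (q + 2) * Y := Nat.mul_le_mul_left _ hc1
    have e4 : (q + 2) * (q * (a + b + c + d)) =
        a * (q * (q + 2)) + d * (q * (q + 2)) + (q + 2) * (b * q) + (q + 2) * (c * q) := by ring
    have e5 : Y * (q + 1) ^ 2 + (q + 1) * Y * (q + 1) ^ 2 + (q + 2) * Y + (q + 2) * Y ≤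
        (q + 2) * ((q + 1 + 1) * ((q + 1) * Y)) := by
      have e6 : (q + 2) * ((q + 1 + 1) * ((q + 1) * Y)) =
        Y * (q + 1) ^ 2 + (q + 1) * Y * (q + 1) ^ 2 + Y * ((q + 1) ^ 2 + (q + 1)) := by ring
      rw [e6]
      have e7 : (q + 2) + (q + 2) ≤ (q + 1) ^ 2 + (q + 1) := by nlinarith
      have e8 : Y * ((q + 2) + (q + 2)) ≤ Y * ((q + 1) ^ 2 + (q + 1)) :=
        Nat.mul_le_mul_left _ e7
      have e9 : (q + 2) * Y + (q + 2) * Y = Y * ((q + 2) + (q + 2)) := by ring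
      rw [← e9] at e8
      rw [Nat.add_assoc (Y * (q + 1) ^ 2 + (q + 1) * Y * (q + 1) ^ 2)]
      exact Nat.add_le_add_left e8 _
    rw [e4] at e1
    exact e1.trans (le_trans (Nat.add_le_add (Nat.add_le_add (Nat.add_le_add ha1 hd1) e2) e3) e5)
  exact Nat.le_of_mul_le_mul_left key (by omega)

theorem arith {p k w n r : ℕ} (hp : 2 ≤ p) (hk : 1 ≤ k) (hn : n = k + w)
    (hW : r * (p - 1) ≤ (p + 1) * (p ^ w - 1))
    (hZ : (r - 1) * (p - 1) ≤ p ^ k * p ^ k - 1)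
    (hS : ∀ s < k, ∃ a b c d, r ≤ a + b + c + d ∧ a * (p ^ (k - s) - 1) ≤ p ^ k * p ^ k - 1 ∧
      b * (p - 1) ≤ p ^ k - 1 ∧ c * (p - 1) ≤ p ^ k - 1 ∧ d * (p ^ (s + 2) - 1) ≤ p ^ w - 1) :
    (p - 1) * r ≤ (p + 1 + n % 2) * p ^ (n / 2) := by
  rcases Nat.lt_or_ge k w with hkw | hwk
  · obtain ⟨h, ε, hε, hw⟩ : ∃ h ε, ε ≤ 1 ∧ w = k + 2 * h + ε :=
      ⟨(w - k) / 2, (w - k) % 2, by omega, by omega⟩
    rcases Nat.lt_or_ge h k with hhk | hkh
    · rcases Nat.eq_zero_or_pos h with h0 | h0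
      · subst h0
        have hε1 : ε = 1 := by omega
        rcases Nat.lt_or_ge k 2 with hk2 | hk2
        · have hk1 : k = 1 := by omega
          subst hk1
          exact arith_one hp (by omega) hZ
        · obtain ⟨a, b, c, d, h1, h2, h3, h4, h5⟩ := hS 0 (by omega)
          exact arith_mid_zero hp hk2 (by omega) hn h1 h2 h3 h4 h5
      · obtain ⟨a, b, c, d, h1, h2, h3, h4, h5⟩ := hS (h - 1) (by omega)
        exact arith_mid hp h0 hhk hε hw hn h1 h2 h3 h4 h5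
    · exact arith_zero hp hk (by omega) hZ
  · exact arith_top hn hwk hW hp

end Pool.Agent.Helper60.PCP
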