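import Pool.Agent.Helper60.PCP.Proj

/-!
Counting the components by their intersections with `K × K`, `K = Z_m(P)`, where `m + 1` is at
least the class of `P`. (Problem MP_47f3f4_co.)
-/

namespace Pool.Agent.Helper60.PCP

open Pool.Agent.Helper19.PCP
open scoped commutatorElement Classical

variable {P : Type*} [Group P]

theorem compl_of_mem [Finite P] {𝒰 : Finset (Subgroup (P × P))} (h : IsPCP (Nat.card P) 𝒰)
    {U V : Subgroup (P × P)} (hU : U ∈ 𝒰) (hV : V ∈ 𝒰) (hne : U ≠ V) :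
    Subgroup.IsComplement' U V :=
  isComplement_of_mem (by rw [Nat.card_prod]) h hU hV hne

theorem disj_aux {U V : Subgroup (P × P)} (hc : Subgroup.IsComplement' U V) (hUV : U ⊓ V = ⊥)
    {i j : ℕ} (hij : i ≤ j) {x : P} (h1 : x ∈ tr U (Zc P i))
    (h2 : x ∈ relC (Zc P (i - 1)) (pr U)) (h3 : x ∈ tr V (Zc P j))
    (h4 : x ∈ relC (Zc P (j - 1)) (pr V)) : x ∈ Zc P j := by
  have hx : ∀ g, ⁅x, g⁆ ∈ Zc P (j - 1) := by
    apply comm_of_pr (Zc P (j - 1)) hc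
    · intro a ha
      exact Subgroup.upperCentralSeries_mono P (Nat.sub_le_sub_right hij 1) (h2 a ha)
    · exact h4
  rcases j with _ | j
  · have hi : i = 0 := by omega
    subst hi
    rw [mem_tr] at h1 h3
    obtain ⟨ζ, hζ, h1⟩ := h1
    obtain ⟨ξ, hξ, h3⟩ := h3
    rw [show Zc P 0 = ⊥ from rfl, Subgroup.mem_bot] at hζ hξ
    subst hζ hξ
    have : ((x, 1) : P × P) ∈ U ⊓ V := ⟨h1, h3⟩
    rw [hUV, Subgroup.mem_bot] at this
    have hx1 : x = 1 := congrArg Prod.fst this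
    rw [hx1]
    exact one_mem _
  · exact Subgroup.mem_upperCentralSeries_succ_iff.mpr hx

/-- the number of bad components -/
theorem bad_count [Finite P] {p : ℕ} [Fact p.Prime] (hP : IsPGroup p P) (m : ℕ)
    {𝒰 : Finset (Subgroup (P × P))} (h : IsPCP (Nat.card P) 𝒰) :
    (𝒰.filter fun U => ¬ Good m U).card * (p - 1) ≤ Nat.card (Zc P m) - 1 := by
  set I := 𝒰.filter fun U => ¬ Good m U with hI
  have hw : ∀ U : Subgroup (P × P), ∃ j, U ∈ I → j < m ∧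
      ¬ (tr U (Zc P j) ⊓ Zc P m ⊓ relC (Zc P (j - 1)) (pr U) ≤ Zc P j) := by
    intro U
    by_cases hU : U ∈ I
    · obtain ⟨j, hj, hj2⟩ := bad_witness hP (Finset.mem_filter.mp hU).2
      exact ⟨j, fun _ => ⟨hj, hj2⟩⟩
    · exact ⟨0, fun h => absurd h hU⟩
  choose J hJ using hw
  rw [← ncard_diff_one]
  apply count_sets I (fun U => (((tr U (Zc P (J U)) ⊓ Zc P m ⊓ relC (Zc P (J U - 1)) (pr U) :
    Subgroup P) : Set P) \ (Zc P (J U) : Set P)))
  · intro U hU V hV hne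
    have hU' := (Finset.mem_filter.mp hU).1
    have hV' := (Finset.mem_filter.mp hV).1
    rw [Set.disjoint_left]
    rintro x ⟨⟨⟨hx1, _⟩, hx2⟩, hx3⟩ ⟨⟨⟨hx4, _⟩, hx5⟩, hx6⟩
    rcases le_total (J U) (J V) with hle | hle
    · exact hx6 (disj_aux (compl_of_mem h hU' hV' hne) (h.2 U hU' V hV' hne) hle hx1 hx2 hx4 hx5)
    · exact hx3 (disj_aux (compl_of_mem h hV' hU' hne.symm) (h.2 V hV' U hU' hne.symm) hle
        hx4 hx5 hx1 hx2)
  · rintro U hU x ⟨⟨⟨_, hx1⟩, _⟩, hx2⟩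
    refine ⟨hx1, fun h1 => hx2 ?_⟩
    rw [Set.mem_singleton_iff] at h1
    rw [h1]
    exact one_mem _
  · intro U hU
    exact le_ncard_diff hP (hJ U hU).2

/-- the image of the trace on `K` in `P / K` -/
def bar (K : Subgroup P) [K.Normal] (U : Subgroup (P × P)) : Subgroup (P ⧸ K) :=
  (tr U K).map (QuotientGroup.mk' K)

theorem mem_bar {K : Subgroup P} [K.Normal] {U : Subgroup (P × P)} {x : P} :
    (x : P ⧸ K) ∈ bar K U ↔ ∃ y ∈ tr U K, y⁻¹ * x ∈ K := by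
  unfold bar
  rw [Subgroup.mem_map]
  constructor
  · rintro ⟨y, hy, hyx⟩
    rw [QuotientGroup.mk'_apply, QuotientGroup.eq] at hyx
    exact ⟨y, hy, hyx⟩
  · rintro ⟨y, hy, hyx⟩
    exact ⟨y, hy, by rw [QuotientGroup.mk'_apply, QuotientGroup.eq]; exact hyx⟩

theorem good_comm {m : ℕ} (hm : ∀ x y : P, ⁅x, y⁆ ∈ Zc P m) (hm1 : 1 ≤ m)
    {U : Subgroup (P × P)} (hg : Good m U) {x : P} (hx : x ∈ tr U (Zc P m)) :
    ∀ a ∈ pr U, ⁅x, a⁆ ∈ Zc P (m - 1) := by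
  intro a ha
  exact hg (m - 1) (by omega) ⟨comm_tr hx ha, hm x a⟩

/-- commutators with an element of `Z_m` -/
theorem comm_Zc {m : ℕ} (hm1 : 1 ≤ m) {κ : P} (hκ : κ ∈ Zc P m) (g : P) :
    ⁅κ, g⁆ ∈ Zc P (m - 1) := by
  obtain ⟨m, rfl⟩ : ∃ l, m = l + 1 := ⟨m - 1, by omega⟩
  exact Subgroup.mem_upperCentralSeries_succ_iff.mp hκ g

theorem comm_Zc' {m : ℕ} (hm1 : 1 ≤ m) {κ : P} (hκ : κ ∈ Zc P m) (g : P) :
    ⁅g, κ⁆ ∈ Zc P (m - 1) := by
  rw [← commutatorElement_inv]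
  exact inv_mem (comm_Zc hm1 hκ g)

theorem mem_Zc_of_comm {m : ℕ} (hm1 : 1 ≤ m) {x : P} (hx : ∀ g, ⁅x, g⁆ ∈ Zc P (m - 1)) :
    x ∈ Zc P m := by
  obtain ⟨m, rfl⟩ : ∃ l, m = l + 1 := ⟨m - 1, by omega⟩
  exact Subgroup.mem_upperCentralSeries_succ_iff.mpr hx

theorem good_disj {m : ℕ} (hm : ∀ x y : P, ⁅x, y⁆ ∈ Zc P m) (hm1 : 1 ≤ m)
    {U V : Subgroup (P × P)} (hc : Subgroup.IsComplement' U V) (hU : Good m U) (hV : Good m V) :
    bar (Zc P m) U ⊓ bar (Zc P m) V = ⊥ := by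
  rw [eq_bot_iff]
  intro q hq
  obtain ⟨z, rfl⟩ := QuotientGroup.mk_surjective q
  obtain ⟨hq1, hq2⟩ := hq
  obtain ⟨x, hx, hxz⟩ := mem_bar.mp hq1
  obtain ⟨y, hy, hyz⟩ := mem_bar.mp hq2
  have hxy : y⁻¹ * x ∈ Zc P m := by
    have : y⁻¹ * x = (y⁻¹ * z) * (x⁻¹ * z)⁻¹ := by group
    rw [this]
    exact mul_mem hyz (inv_mem hxz)
  have hxm : x ∈ Zc P m := by
    apply mem_Zc_of_comm hm1
    apply comm_of_pr (Zc P (m - 1)) hc
    · exact good_comm hm hm1 hU hx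
    · intro b hb
      have h1 := good_comm hm hm1 hV hy b hb
      have h2 : x = y * (y⁻¹ * x) := by group
      rw [h2]
      exact comm_mul_left _ h1 (comm_Zc hm1 hxy b)
  rw [Subgroup.mem_bot, QuotientGroup.eq_one_iff]
  have : z = x * (x⁻¹ * z) := by group
  rw [this]
  exact mul_mem hxm hxz

theorem good_count [Finite P] {m : ℕ} (hm : ∀ x y : P, ⁅x, y⁆ ∈ Zc P m) (hm1 : 1 ≤ m)
    {𝒰 : Finset (Subgroup (P × P))} (h : IsPCP (Nat.card P) 𝒰) (e : ℕ) :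
    (𝒰.filter fun U => Good m U ∧ e ≤ Nat.card (bar (Zc P m) U)).card * (e - 1) ≤
      Nat.card (P ⧸ Zc P m) - 1 := by
  apply count_subgroups' _ (bar (Zc P m))
  · intro U hU V hV hne
    rw [Finset.mem_filter] at hU hV
    exact good_disj hm hm1 (compl_of_mem h hU.1 hV.1 hne) hU.2.1 hV.2.1
  · intro U hU
    exact (Finset.mem_filter.mp hU).2.2

/-- orders: `|U ∩ ker f| |f(U)| = |U|` -/
theorem card_inf_ker_mul {G L : Type*} [Group G] [Group L] (U : Subgroup G) (f : G →* L) :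
    Nat.card (U ⊓ f.ker : Subgroup G) * Nat.card (U.map f) = Nat.card U := by
  have h1 : Nat.card (f.comp U.subtype).ker * (f.comp U.subtype).ker.index = Nat.card U :=
    Subgroup.card_mul_index _
  rw [Subgroup.index_ker, MonoidHom.range_comp, Subgroup.range_subtype] at h1
  rw [← h1]
  congr 1
  refine Nat.card_congr ⟨fun x => ⟨⟨x.1, x.2.1⟩, ?_⟩, fun x => ⟨x.1.1, x.1.2, ?_⟩, ?_, ?_⟩
  · exact x.2.2
  · exact x.2
  · intro x; rfl
  · intro x; rfl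

/-- first coordinate modulo `K` -/
def f1 (K : Subgroup P) [K.Normal] : P × P →* P ⧸ K := (QuotientGroup.mk' K).comp (MonoidHom.fst P P)

/-- second coordinate modulo `K` -/
def f2 (K : Subgroup P) [K.Normal] : P × P →* P ⧸ K := (QuotientGroup.mk' K).comp (MonoidHom.snd P P)

theorem mem_ker_f1 {K : Subgroup P} [K.Normal] {g : P × P} : g ∈ (f1 K).ker ↔ g.1 ∈ K := by
  rw [MonoidHom.mem_ker]
  exact QuotientGroup.eq_one_iff _

theorem mem_ker_f2 {K : Subgroup P} [K.Normal] {g : P × P} : g ∈ (f2 K).ker ↔ g.2 ∈ K := by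
  rw [MonoidHom.mem_ker]
  exact QuotientGroup.eq_one_iff _

theorem card_bar_mul (K : Subgroup P) [K.Normal] (U : Subgroup (P × P)) :
    Nat.card (U ⊓ K.prod K : Subgroup (P × P)) * Nat.card (bar K U) =
      Nat.card (U ⊓ (f2 K).ker : Subgroup (P × P)) := by
  rw [← card_inf_ker_mul (U ⊓ (f2 K).ker) (f1 K)]
  have e1 : U ⊓ (f2 K).ker ⊓ (f1 K).ker = U ⊓ K.prod K := by
    ext g
    simp only [Subgroup.mem_inf, mem_ker_f1, mem_ker_f2, Subgroup.mem_prod]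
    tauto
  have e2 : (U ⊓ (f2 K).ker).map (f1 K) = bar K U := by
    ext q
    obtain ⟨x, rfl⟩ := QuotientGroup.mk_surjective q
    rw [mem_bar, Subgroup.mem_map]
    constructor
    · rintro ⟨g, ⟨hg1, hg2⟩, hgx⟩
      have hg2' : g.2 ∈ K := mem_ker_f2.mp hg2
      refine ⟨g.1, mem_tr.mpr ⟨g.2, hg2', hg1⟩, ?_⟩
      exact QuotientGroup.eq.mp hgx
    · rintro ⟨y, hy, hyx⟩
      obtain ⟨ζ, hζ, hyζ⟩ := mem_tr.mp hy
      exact ⟨(y, ζ), ⟨hyζ, mem_ker_f2.mpr hζ⟩, QuotientGroup.eq.mpr hyx⟩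
  rw [e1, e2]

theorem card_K_le [Finite P] (K : Subgroup P) [K.Normal] {U : Subgroup (P × P)}
    (hU : Nat.card U = Nat.card P) :
    Nat.card K ≤ Nat.card (U ⊓ K.prod K : Subgroup (P × P)) * Nat.card (bar K U) := by
  rw [card_bar_mul]
  have h1 := card_inf_ker_mul U (f2 K)
  have h2 : Nat.card (U.map (f2 K)) ≤ Nat.card (P ⧸ K) := Subgroup.card_le_card_group _
  have h3 : Nat.card K * Nat.card (P ⧸ K) = Nat.card P := by
    rw [mul_comm]; exact (Subgroup.card_eq_card_quotient_mul_card_subgroup K).symm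
  rw [hU, ← h3] at h1
  have h4 : Nat.card K * Nat.card (P ⧸ K) ≤
      Nat.card (U ⊓ (f2 K).ker : Subgroup (P × P)) * Nat.card (P ⧸ K) := by
    rw [← h1]; exact Nat.mul_le_mul_left _ h2
  exact Nat.le_of_mul_le_mul_right h4 Nat.card_pos

theorem card_K_le' [Finite P] {p : ℕ} [Fact p.Prime] (hP : IsPGroup p P) (K : Subgroup P)
    [K.Normal] {U : Subgroup (P × P)} (hU : Nat.card U = Nat.card P)
    (hU2 : U.map (f2 K) ≠ ⊤) :
    p * Nat.card K ≤ Nat.card (U ⊓ K.prod K : Subgroup (P × P)) * Nat.card (bar K U) := by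
  rw [card_bar_mul]
  have h1 := card_inf_ker_mul U (f2 K)
  have h2 : Nat.card (U.map (f2 K)) * p ≤ Nat.card (P ⧸ K) := by
    have hq : IsPGroup p (P ⧸ K) := hP.to_quotient K
    rw [← Subgroup.card_mul_index (U.map (f2 K))]
    apply Nat.mul_le_mul_left
    obtain ⟨a, ha⟩ := hq.index (U.map (f2 K))
    have ha0 : a ≠ 0 := by
      rintro rfl
      rw [pow_zero] at ha
      exact hU2 (Subgroup.index_eq_one.mp ha)
    rw [ha]
    calc p = p ^ 1 := (pow_one p).symm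
      _ ≤ p ^ a := Nat.pow_le_pow_right (Fact.out : p.Prime).pos (by omega)
  have h3 : Nat.card K * Nat.card (P ⧸ K) = Nat.card P := by
    rw [mul_comm]; exact (Subgroup.card_eq_card_quotient_mul_card_subgroup K).symm
  rw [hU, ← h3] at h1
  have hpos : 0 < Nat.card (U.map (f2 K)) := Nat.card_pos
  have h4 : (p * Nat.card K) * Nat.card (U.map (f2 K)) ≤
      Nat.card (U ⊓ (f2 K).ker : Subgroup (P × P)) * Nat.card (U.map (f2 K)) := by
    rw [h1]
    calc (p * Nat.card K) * Nat.card (U.map (f2 K))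
        = Nat.card K * (Nat.card (U.map (f2 K)) * p) := by ring
      _ ≤ _ := Nat.mul_le_mul_left _ h2
  exact Nat.le_of_mul_le_mul_right h4 hpos

end Pool.Agent.Helper60.PCP
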