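import Mathlib

/-!
Counting pairwise disjoint sets and subgroups; orders in `p`-groups. (Problem MP_47f3f4_co.)
-/

namespace Pool.Agent.Helper60.PCP

open scoped Classical

theorem count_sets {α ι : Type*} [Finite α] (I : Finset ι) (S : ι → Set α) (N : Set α) (m : ℕ)
    (hd : ∀ i ∈ I, ∀ j ∈ I, i ≠ j → Disjoint (S i) (S j)) (hN : ∀ i ∈ I, S i ⊆ N)
    (hm : ∀ i ∈ I, m ≤ (S i).ncard) : I.card * m ≤ N.ncard := by
  have hf : Fintype α := Fintype.ofFinite α
  have h1 : (I.biUnion fun i => (S i).toFinset).card = ∑ i ∈ I, (S i).toFinset.card := by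
    apply Finset.card_biUnion
    intro i hi j hj hij
    rw [Function.onFun, Set.disjoint_toFinset]
    exact hd i hi j hj hij
  have h2 : (I.biUnion fun i => (S i).toFinset) ⊆ N.toFinset := by
    intro x hx
    rw [Finset.mem_biUnion] at hx
    obtain ⟨i, hi, hxi⟩ := hx
    rw [Set.mem_toFinset] at hxi ⊢
    exact hN i hi hxi
  calc I.card * m = ∑ i ∈ I, m := by rw [Finset.sum_const, smul_eq_mul]
    _ ≤ ∑ i ∈ I, (S i).toFinset.card := by
        apply Finset.sum_le_sum
        intro i hi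
        rw [← Set.ncard_eq_toFinset_card']
        exact hm i hi
    _ = (I.biUnion fun i => (S i).toFinset).card := h1.symm
    _ ≤ N.toFinset.card := Finset.card_le_card h2
    _ = N.ncard := (Set.ncard_eq_toFinset_card' N).symm

theorem ncard_diff_one {G : Type*} [Group G] [Finite G] (H : Subgroup G) :
    ((H : Set G) \ {1}).ncard = Nat.card H - 1 := by
  rw [Set.ncard_sdiff_singleton_of_mem H.one_mem]
  rfl

theorem count_subgroups {G ι : Type*} [Group G] [Finite G] (I : Finset ι) (f : ι → Subgroup G)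
    (N : Subgroup G) (m : ℕ) (hd : ∀ i ∈ I, ∀ j ∈ I, i ≠ j → f i ⊓ f j = ⊥)
    (hN : ∀ i ∈ I, f i ≤ N) (hm : ∀ i ∈ I, m ≤ Nat.card (f i)) :
    I.card * (m - 1) ≤ Nat.card N - 1 := by
  rw [← ncard_diff_one]
  apply count_sets I (fun i => ((f i : Set G) \ {1}))
  · intro i hi j hj hij
    rw [Set.disjoint_left]
    rintro x ⟨hx1, hx⟩ ⟨hx2, _⟩
    have : x ∈ f i ⊓ f j := ⟨hx1, hx2⟩
    rw [hd i hi j hj hij, Subgroup.mem_bot] at this
    exact hx this
  · intro i hi x hx
    exact ⟨hN i hi hx.1, hx.2⟩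
  · intro i hi
    rw [ncard_diff_one]
    exact Nat.sub_le_sub_right (hm i hi) 1

theorem count_subgroups' {G ι : Type*} [Group G] [Finite G] (I : Finset ι) (f : ι → Subgroup G)
    (m : ℕ) (hd : ∀ i ∈ I, ∀ j ∈ I, i ≠ j → f i ⊓ f j = ⊥)
    (hm : ∀ i ∈ I, m ≤ Nat.card (f i)) : I.card * (m - 1) ≤ Nat.card G - 1 := by
  have := count_subgroups I f ⊤ m hd (fun i _ => le_top) hm
  rwa [Subgroup.card_top] at this

/-- In a `p`-group a subgroup with more than `p ^ a` elements has at least `p ^ (a + 1)`. -/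
theorem pow_le_card {G : Type*} [Group G] [Finite G] {p : ℕ} [Fact p.Prime] (hG : IsPGroup p G)
    (H : Subgroup G) {a : ℕ} (h : p ^ a < Nat.card H) : p ^ (a + 1) ≤ Nat.card H := by
  obtain ⟨b, hb⟩ := (IsPGroup.iff_card).mp (hG.to_subgroup H)
  rw [hb] at h ⊢
  have hp := (Fact.out : p.Prime).one_lt
  exact Nat.pow_le_pow_right hp.le ((Nat.pow_lt_pow_iff_right hp).mp h)

theorem le_card_of_ne_bot {G : Type*} [Group G] [Finite G] {p : ℕ} [Fact p.Prime]
    (hG : IsPGroup p G) {H : Subgroup G} (h : H ≠ ⊥) : p ≤ Nat.card H := by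
  have h1 : p ^ 0 < Nat.card H := by
    rw [pow_zero]
    exact (Subgroup.one_lt_card_iff_ne_bot H).mpr h
  have := pow_le_card hG H h1
  simpa using this

/-- In a `p`-group, `H \ N` has at least `p - 1` elements if `H` is not contained in `N`. -/
theorem le_ncard_diff {G : Type*} [Group G] [Finite G] {p : ℕ} [Fact p.Prime]
    (hG : IsPGroup p G) {H N : Subgroup G} (h : ¬ H ≤ N) :
    p - 1 ≤ ((H : Set G) \ N).ncard := by
  have h1 : ((H : Set G) \ N).ncard = Nat.card H - Nat.card (H ⊓ N : Subgroup G) := by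
    have h2 : (H : Set G) \ N = (H : Set G) \ ((H ⊓ N : Subgroup G) : Set G) := by
      ext x; simp only [Set.mem_diff, SetLike.mem_coe, Subgroup.mem_inf]; tauto
    rw [h2, Set.ncard_sdiff (by intro x hx; exact hx.1)]
    rfl
  rw [h1]
  obtain ⟨a, ha⟩ := (IsPGroup.iff_card).mp (hG.to_subgroup H)
  obtain ⟨b, hb⟩ := (IsPGroup.iff_card).mp (hG.to_subgroup (H ⊓ N))
  have hp := (Fact.out : p.Prime).one_lt
  have hlt : Nat.card (H ⊓ N : Subgroup G) < Nat.card H := by
    apply lt_of_le_of_ne (Subgroup.card_le_of_le inf_le_left)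
    intro he
    apply h
    have := Subgroup.eq_of_le_of_card_ge (inf_le_left : H ⊓ N ≤ H) he.ge
    rw [← this]; exact inf_le_right
  rw [ha, hb] at hlt ⊢
  have hab : b < a := (Nat.pow_lt_pow_iff_right hp).mp hlt
  have h3 : p ^ (b + 1) ≤ p ^ a := Nat.pow_le_pow_right hp.le hab
  have h4 : p ^ (b + 1) = p * p ^ b := by ring
  have h5 : 1 ≤ p ^ b := Nat.one_le_pow _ _ hp.le
  have h6 : p - 1 ≤ (p - 1) * p ^ b := Nat.le_mul_of_pos_right _ h5
  have h7 : (p - 1) * p ^ b = p * p ^ b - p ^ b := by rw [Nat.sub_mul, one_mul]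
  omega

end Pool.Agent.Helper60.PCP
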