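import Pool.Agent.Helper60.PCP.Top

/-!
A bound for `T(P × P)` in terms of the number of generators of `P` and the fully invariant
sections of `P`. (Problem MP_47f3f4_co.)
-/

namespace Pool.Agent.Helper60.PCP

open Pool.Agent.Helper19.PCP
open scoped commutatorElement Classical

variable {P : Type*} [Group P]

/-- A component which projects onto the first factor is the graph of an endomorphism. -/
theorem exists_endo [Finite P] {U : Subgroup (P × P)} (hU : Nat.card U = Nat.card P)
    (h : pr U = ⊤) : ∃ θ : P →* P, ∀ x y, (x, y) ∈ U ↔ y = θ x := by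
  have hsurj : Function.Surjective ((MonoidHom.fst P P).comp U.subtype) := by
    intro x
    have hx : x ∈ pr U := by rw [h]; exact Subgroup.mem_top _
    obtain ⟨y, hy⟩ := mem_pr.mp hx
    exact ⟨⟨(x, y), hy⟩, rfl⟩
  have hbij : Function.Bijective ((MonoidHom.fst P P).comp U.subtype) :=
    hsurj.bijective_of_nat_card_le hU.le
  let e : U ≃* P := MulEquiv.ofBijective _ hbij
  refine ⟨(MonoidHom.snd P P).comp (U.subtype.comp e.symm.toMonoidHom), fun x y => ?_⟩
  constructor
  · intro hxy
    have h1 : e ⟨(x, y), hxy⟩ = x := rfl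
    have h2 : e.symm x = ⟨(x, y), hxy⟩ := (MulEquiv.symm_apply_eq e).mpr h1.symm
    change y = ((e.symm x : U) : P × P).2
    rw [h2]
  · intro hy
    have h1 : ((e.symm x : U) : P × P).1 = x := e.apply_symm_apply x
    have h2 : ((e.symm x : U) : P × P).2 = y := hy.symm
    have h3 : ((e.symm x : U) : P × P) = (x, y) := Prod.ext h1 h2
    rw [← h3]
    exact (e.symm x : U).2

/-- The components of graph type are at most as many as the cosets of `M` in `N`. -/
theorem endo_count [Finite P] (M N : Subgroup P) (hM : ∀ f : P →* P, M.map f ≤ M)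
    (hN : ∀ f : P →* P, N.map f ≤ N) (hMN : ¬ N ≤ M) {𝒰 : Finset (Subgroup (P × P))}
    (h : IsPCP (Nat.card P) 𝒰) : (𝒰.filter fun U => pr U = ⊤).card ≤ M.relIndex N := by
  obtain ⟨u, huN, huM⟩ : ∃ u ∈ N, u ∉ M := by
    by_contra hcon
    push Not at hcon
    exact hMN hcon
  have hex : ∀ U : Subgroup (P × P), ∃ θ : P →* P, U ∈ 𝒰.filter (fun U => pr U = ⊤) →
      ∀ x y, (x, y) ∈ U ↔ y = θ x := by
    intro U
    by_cases hU : U ∈ 𝒰.filter (fun U => pr U = ⊤)
    · rw [Finset.mem_filter] at hU
      obtain ⟨θ, hθ⟩ := exists_endo (h.1 U hU.1) hU.2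
      exact ⟨θ, fun _ => hθ⟩
    · exact ⟨1, fun h => absurd h hU⟩
  choose θ hθ using hex
  have hfin : Fintype (N ⧸ M.subgroupOf N) := Fintype.ofFinite _
  have hmemN : ∀ U : Subgroup (P × P), θ U u ∈ N := fun U => hN _ (Subgroup.mem_map_of_mem _ huN)
  let g : Subgroup (P × P) → N ⧸ M.subgroupOf N := fun U =>
    QuotientGroup.mk (⟨θ U u, hmemN U⟩ : N)
  have hinj : Set.InjOn g (𝒰.filter (fun U => pr U = ⊤) : Finset (Subgroup (P × P))) := by
    intro U hU V hV hUV
    by_contra hne
    have hU' := Finset.mem_coe.mp hU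
    have hV' := Finset.mem_coe.mp hV
    have hbot := h.2 U (Finset.mem_filter.mp hU').1 V (Finset.mem_filter.mp hV').1 hne
    have h1 : (θ U u)⁻¹ * θ V u ∈ M := by
      have := QuotientGroup.eq.mp hUV
      rw [Subgroup.mem_subgroupOf] at this
      exact this
    -- the difference map
    have hδ : Function.Injective (fun x : P => (θ U x)⁻¹ * θ V x) := by
      intro x y hxy
      have h2 : (θ U x)⁻¹ * θ V x = (θ U y)⁻¹ * θ V y := hxy
      have h3 : θ U (y * x⁻¹) = θ V (y * x⁻¹) := by
        rw [map_mul, map_mul, map_inv, map_inv]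
        have h4 : θ V x = θ U x * ((θ U y)⁻¹ * θ V y) := by rw [← h2]; group
        rw [h4]; group
      have h5 : ((y * x⁻¹, θ U (y * x⁻¹)) : P × P) ∈ U ⊓ V :=
        ⟨(hθ U hU' _ _).mpr rfl, (hθ V hV' _ _).mpr h3⟩
      rw [hbot, Subgroup.mem_bot] at h5
      have h6 : y * x⁻¹ = 1 := congrArg Prod.fst h5
      exact (mul_inv_eq_one.mp h6).symm
    let δ : M → M := fun x => ⟨(θ U x)⁻¹ * θ V x,
      mul_mem (inv_mem (hM _ (Subgroup.mem_map_of_mem _ x.2))) (hM _ (Subgroup.mem_map_of_mem _ x.2))⟩
    have hδM : Function.Injective δ := by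
      intro x y hxy
      exact Subtype.ext (hδ (congrArg Subtype.val hxy))
    have hδs : Function.Surjective δ := Finite.surjective_of_injective hδM
    obtain ⟨m, hm⟩ := hδs ⟨_, h1⟩
    have h7 : (m : P) = u := hδ (congrArg Subtype.val hm)
    exact huM (h7 ▸ m.2)
  calc (𝒰.filter fun U => pr U = ⊤).card
      = ((𝒰.filter fun U => pr U = ⊤).image g).card := (Finset.card_image_of_injOn hinj).symm
    _ ≤ Fintype.card (N ⧸ M.subgroupOf N) := Finset.card_le_univ _
    _ = M.relIndex N := by
        rw [← Nat.card_eq_fintype_card]; rfl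

/-- In a finite `p`-group the Frattini subgroup contains all commutators. -/
theorem comm_mem_frattini [Finite P] {p : ℕ} [Fact p.Prime] (hP : IsPGroup p P) (x y : P) :
    ⁅x, y⁆ ∈ frattini P := by
  have hnil : Group.IsNilpotent P := hP.isNilpotent
  rw [frattini, Order.radical]
  simp only [Subgroup.mem_iInf]
  intro M hM
  have hM' : IsCoatom M := hM
  have hnor : M.Normal := Subgroup.NormalizerCondition.normal_of_coatom M
    Group.normalizerCondition_of_isNilpotent hM'
  have hQ : IsPGroup p (P ⧸ M) := hP.to_quotient M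
  have hnt : Nontrivial (P ⧸ M) := by
    rw [QuotientGroup.nontrivial_iff]
    exact hM'.1
  have hc := hQ.bot_lt_center
  -- the preimage of the centre
  have h1 : M < (Subgroup.center (P ⧸ M)).comap (QuotientGroup.mk' M) := by
    obtain ⟨z, hz, hz1⟩ := SetLike.exists_of_lt hc
    obtain ⟨g, rfl⟩ := QuotientGroup.mk_surjective z
    refine lt_of_le_of_ne ?_ ?_
    · intro m hm
      rw [Subgroup.mem_comap]
      have : QuotientGroup.mk' M m = 1 := (QuotientGroup.eq_one_iff m).mpr hm
      rw [this]
      exact one_mem _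
    · intro he
      have hg : g ∈ (Subgroup.center (P ⧸ M)).comap (QuotientGroup.mk' M) := hz
      rw [← he] at hg
      exact hz1 (Subgroup.mem_bot.mpr ((QuotientGroup.eq_one_iff g).mpr hg))
  have h2 := hM'.2 _ h1
  rw [comm_mem_iff]
  have hx : x ∈ (Subgroup.center (P ⧸ M)).comap (QuotientGroup.mk' M) := by
    rw [h2]; exact Subgroup.mem_top _
  exact (Subgroup.mem_center_iff.mp hx (y : P ⧸ M)).symm

/-- The components which do not project onto the first factor. -/
theorem proper_count [Finite P] {p : ℕ} [Fact p.Prime] (hP : IsPGroup p P)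
    {𝒰 : Finset (Subgroup (P × P))} (h : IsPCP (Nat.card P) 𝒰) :
    (𝒰.filter fun U => ¬ pr U = ⊤).card * (p - 1) ≤ (frattini P).index - 1 := by
  have hnor : (frattini P).Normal := inferInstance
  let _ : CommGroup (P ⧸ frattini P) :=
    { (inferInstance : Group (P ⧸ frattini P)) with
      mul_comm := by
        intro a b
        obtain ⟨x, rfl⟩ := QuotientGroup.mk_surjective a
        obtain ⟨y, rfl⟩ := QuotientGroup.mk_surjective b
        exact (comm_mem_iff (frattini P) x y).mp (comm_mem_frattini hP x y) }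
  change _ ≤ Nat.card (P ⧸ frattini P) - 1
  apply count_proper (hP.to_quotient (frattini P)) _ (fun U => U.map (f1 (frattini P)))
  · intro U hU htop
    apply (Finset.mem_filter.mp hU).2
    apply frattini_nongenerating
    rw [eq_top_iff]
    intro g _
    obtain ⟨a, ha, hag⟩ := pr_of_top htop g
    have : g = a * (a⁻¹ * g) := by group
    rw [this]
    exact mul_mem (Subgroup.mem_sup_left ha) (Subgroup.mem_sup_right hag)
  · intro U hU V hV hne x
    obtain ⟨g, rfl⟩ := QuotientGroup.mk_surjective x
    obtain ⟨u, hu, v, hv, huv⟩ := exists_mul (compl_of_mem h (Finset.mem_filter.mp hU).1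
      (Finset.mem_filter.mp hV).1 hne) (g, 1)
    refine ⟨f1 (frattini P) u, ⟨u, hu, rfl⟩, f1 (frattini P) v, ⟨v, hv, rfl⟩, ?_⟩
    rw [← map_mul, huv]
    rfl

/-- The bound by generators and fully invariant sections. -/
theorem gen_bound [Finite P] {p : ℕ} [Fact p.Prime] (hP : IsPGroup p P) (M N : Subgroup P)
    (hM : ∀ f : P →* P, M.map f ≤ M) (hN : ∀ f : P →* P, N.map f ≤ N) (hMN : ¬ N ≤ M) :
    T (P × P) ≤ M.relIndex N + ((frattini P).index - 1) / (p - 1) := by
  apply T_prod_le
  intro 𝒰 h
  have h1 := Finset.card_filter_add_card_filter_not (s := 𝒰) (fun U => pr U = ⊤)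
  have h2 := endo_count M N hM hN hMN h
  have h3 := proper_count hP h
  have hp := (Fact.out : p.Prime).one_lt
  rw [← Nat.le_div_iff_mul_le (by omega)] at h3
  omega

end Pool.Agent.Helper60.PCP
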