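import Pool.Agent.Helper60.PCP.Top
import Pool.Agent.Helper60.PCP.Arith

/-!
The universal bound `(p - 1) T(P × P) ≤ (p + 1 + (n mod 2)) p ^ ⌊n / 2⌋`. (Problem MP_47f3f4_co.)
-/

namespace Pool.Agent.Helper60.PCP

open Pool.Agent.Helper19.PCP
open scoped commutatorElement Classical

variable {P : Type*} [Group P]

/-- For a non-abelian finite `p`-group there is `m ≥ 1` with `[P, P] ≤ Z_m(P) ≠ P`. -/
theorem exists_level [Finite P] {p : ℕ} [Fact p.Prime] (hP : IsPGroup p P)
    (hna : ∃ a b : P, a * b ≠ b * a) :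
    ∃ m, 1 ≤ m ∧ (∀ x y : P, ⁅x, y⁆ ∈ Zc P m) ∧ Zc P m ≠ ⊤ ∧ m + 1 = Group.nilpotencyClass P := by
  have hnil : Group.IsNilpotent P := hP.isNilpotent
  have h1 : ¬ Group.nilpotencyClass P ≤ 1 := by
    intro hle
    obtain ⟨a, b, hab⟩ := hna
    have h2 : Subgroup.upperCentralSeries P 1 = ⊤ :=
      Subgroup.upperCentralSeries_eq_top_iff_nilpotencyClass_le.mpr hle
    rw [Subgroup.upperCentralSeries_one] at h2
    have h3 : a ∈ Subgroup.center P := by rw [h2]; exact Subgroup.mem_top _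
    exact hab (Subgroup.mem_center_iff.mp h3 b).symm
  refine ⟨Group.nilpotencyClass P - 1, by omega, ?_, ?_, by omega⟩
  · intro x y
    have h2 : x ∈ Zc P (Group.nilpotencyClass P - 1 + 1) := by
      have : Group.nilpotencyClass P - 1 + 1 = Group.nilpotencyClass P := by omega
      rw [this, show Zc P (Group.nilpotencyClass P) = ⊤ from Subgroup.upperCentralSeries_nilpotencyClass]
      exact Subgroup.mem_top _
    exact Subgroup.mem_upperCentralSeries_succ_iff.mp h2 y
  · intro h2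
    have := Subgroup.upperCentralSeries_eq_top_iff_nilpotencyClass_le.mp h2
    omega

theorem card_le_four [Finite P] {p : ℕ} [Fact p.Prime] (hP : IsPGroup p P) {m : ℕ}
    (hm : ∀ x y : P, ⁅x, y⁆ ∈ Zc P m) (hm1 : 1 ≤ m) {k s : ℕ} (hs : s < k)
    (hk : Nat.card (Zc P m) = p ^ k)
    {𝒰 : Finset (Subgroup (P × P))} (h : IsPCP (Nat.card P) 𝒰) :
    𝒰.card ≤ (𝒰.filter fun U =>
        p ^ (k - s) ≤ Nat.card (U ⊓ (Zc P m).prod (Zc P m) : Subgroup (P × P))).card +
      (𝒰.filter fun U => ¬ Good m U).card + (𝒰.filter fun U => ¬ Good m (sw U)).card +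
      (𝒰.filter fun U => Good m U ∧ p ^ (s + 2) ≤ Nat.card (bar (Zc P m) U)).card := by
  have hsub : 𝒰 ⊆ (𝒰.filter fun U =>
        p ^ (k - s) ≤ Nat.card (U ⊓ (Zc P m).prod (Zc P m) : Subgroup (P × P))) ∪
      (𝒰.filter fun U => ¬ Good m U) ∪ (𝒰.filter fun U => ¬ Good m (sw U)) ∪
      (𝒰.filter fun U => Good m U ∧ p ^ (s + 2) ≤ Nat.card (bar (Zc P m) U)) := by
    intro U hU
    simp only [Finset.mem_union, Finset.mem_filter]
    by_cases h1 : p ^ (k - s) ≤ Nat.card (U ⊓ (Zc P m).prod (Zc P m) : Subgroup (P × P))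
    · exact Or.inl (Or.inl (Or.inl ⟨hU, h1⟩))
    by_cases h2 : Good m U
    swap
    · exact Or.inl (Or.inl (Or.inr ⟨hU, h2⟩))
    by_cases h3 : Good m (sw U)
    swap
    · exact Or.inl (Or.inr ⟨hU, h3⟩)
    refine Or.inr ⟨hU, h2, ?_⟩
    push Not at h1
    have hp := (Fact.out : p.Prime).one_lt
    have h4 : p ^ (k - s) ≤ p ^ k := Nat.pow_le_pow_right hp.le (by omega)
    have h5 := map_f2_ne_top hm hm1 (h.1 U hU) h3 (by rw [hk]; omega)
    have h6 := card_K_le' hP (Zc P m) (h.1 U hU) h5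
    have h7 : p ^ (s + 1) < Nat.card (bar (Zc P m) U) := by
      by_contra hcon
      push Not at hcon
      have hpos : 0 < Nat.card (bar (Zc P m) U) := Nat.card_pos
      have h8 : p ^ (k - s) * p ^ (s + 1) = p * p ^ k := by
        rw [← pow_add, ← pow_succ']; congr 1; omega
      have h9 : Nat.card (U ⊓ (Zc P m).prod (Zc P m) : Subgroup (P × P)) *
          Nat.card (bar (Zc P m) U) < p ^ (k - s) * p ^ (s + 1) :=
        Nat.mul_lt_mul_of_lt_of_le h1 hcon (by positivity)
      rw [hk] at h6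
      omega
    exact pow_le_card (hP.to_quotient _) _ h7
  refine (Finset.card_le_card hsub).trans ((Finset.card_union_le _ _).trans ?_)
  refine Nat.add_le_add_right ((Finset.card_union_le _ _).trans ?_) _
  exact Nat.add_le_add_right (Finset.card_union_le _ _) _

/-- The universal bound for one partial congruence partition. -/
theorem half_bound_aux [Finite P] {p : ℕ} [Fact p.Prime] {n : ℕ} (hn : Nat.card P = p ^ n)
    (hna : ∃ a b : P, a * b ≠ b * a) {𝒰 : Finset (Subgroup (P × P))}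
    (h : IsPCP (Nat.card P) 𝒰) : (p - 1) * 𝒰.card ≤ (p + 1 + n % 2) * p ^ (n / 2) := by
  have hP : IsPGroup p P := IsPGroup.of_card hn
  have hnt : Nontrivial P := by
    obtain ⟨a, b, hab⟩ := hna
    exact ⟨a * b, b * a, hab⟩
  have hp := (Fact.out : p.Prime).one_lt
  obtain ⟨m, hm1, hm, hK, _⟩ := exists_level hP hna
  obtain ⟨k, hk⟩ := IsPGroup.iff_card.mp (hP.to_subgroup (Zc P m))
  obtain ⟨w, hw⟩ := IsPGroup.iff_card.mp (hP.to_quotient (Zc P m))
  have hk1 : 1 ≤ k := by
    by_contra hcon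
    have hk0 : k = 0 := by omega
    rw [hk0, pow_zero, Subgroup.card_eq_one] at hk
    have hle : Subgroup.center P ≤ Zc P m := by
      rw [← Subgroup.upperCentralSeries_one]
      exact Subgroup.upperCentralSeries_mono P hm1
    rw [hk, le_bot_iff] at hle
    exact absurd hle (ne_of_gt hP.bot_lt_center)
  have hnkw : n = k + w := by
    have h1 := Subgroup.card_eq_card_quotient_mul_card_subgroup (Zc P m)
    rw [hn, hk, hw, ← pow_add] at h1
    have := Nat.pow_right_injective hp h1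
    omega
  apply arith (k := k) (w := w) hp hk1 hnkw
  · have := bound_top hP hm hK h
    rwa [hw] at this
  · have := bound_zero hP hm hm1 h
    rwa [hk] at this
  · intro s hs
    refine ⟨_, _, _, _, card_le_four hP hm hm1 hs hk h, ?_, ?_, ?_, ?_⟩
    · rw [← hk]; exact large_count (Zc P m) h _
    · rw [← hk]; exact bad_count hP m h
    · rw [← hk]; exact bad_count_sw hP m h
    · rw [← hw]; exact good_count hm hm1 h _

/-- The universal bound. -/
theorem half_bound [Finite P] {p : ℕ} [Fact p.Prime] {n : ℕ} (hn : Nat.card P = p ^ n)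
    (hna : ∃ a b : P, a * b ≠ b * a) :
    (p - 1) * T (P × P) ≤ (p + 1 + n % 2) * p ^ (n / 2) := by
  have hp := (Fact.out : p.Prime).one_lt
  have h1 : T (P × P) ≤ ((p + 1 + n % 2) * p ^ (n / 2)) / (p - 1) := by
    apply T_prod_le
    intro 𝒰 h
    rw [Nat.le_div_iff_mul_le (by omega), mul_comm]
    exact half_bound_aux hn hna h
  exact (Nat.mul_le_mul_left _ h1).trans (Nat.mul_div_le _ _)

end Pool.Agent.Helper60.PCP
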