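import Mathlib

/-!
Central series: `[γ_(j+1)(P), Z_(i+j+1)(P)] ≤ Z_i(P)` and commutators modulo a normal subgroup.
(Problem MP_47f3f4_co.)
-/

namespace Pool.Agent.Helper60.PCP

open scoped commutatorElement

variable {P : Type*} [Group P]

/-- the upper central series -/
abbrev Zc (P : Type*) [Group P] (j : ℕ) : Subgroup P := Subgroup.upperCentralSeries P j

/-- the lower central series (`Lc P 0 = P`) -/
abbrev Lc (P : Type*) [Group P] (j : ℕ) : Subgroup P := (⊤ : Subgroup P).lowerCentralSeries j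

/-- three subgroups lemma modulo a normal subgroup -/
theorem three_subgroups {H₁ H₂ H₃ N : Subgroup P} [N.Normal]
    (h1 : ⁅⁅H₂, H₃⁆, H₁⁆ ≤ N) (h2 : ⁅⁅H₃, H₁⁆, H₂⁆ ≤ N) : ⁅⁅H₁, H₂⁆, H₃⁆ ≤ N := by
  have key : ∀ A B C : Subgroup P, ⁅⁅A, B⁆, C⁆ ≤ N ↔
      ⁅⁅A.map (QuotientGroup.mk' N), B.map (QuotientGroup.mk' N)⁆,
        C.map (QuotientGroup.mk' N)⁆ = ⊥ := by
    intro A B C
    rw [← Subgroup.map_commutator, ← Subgroup.map_commutator, Subgroup.map_eq_bot_iff,
      QuotientGroup.ker_mk']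
  rw [key] at h1 h2 ⊢
  exact Subgroup.commutator_commutator_eq_bot_of_rotate h1 h2

theorem comm_lcs_ucs_le (j : ℕ) : ∀ i : ℕ, ⁅Lc P j, Zc P (i + j + 1)⁆ ≤ Zc P i := by
  induction j with
  | zero =>
    intro i
    show ⁅(⊤ : Subgroup P).lowerCentralSeries 0, _⁆ ≤ _
    rw [Subgroup.lowerCentralSeries_zero, Subgroup.commutator_comm]
    exact Subgroup.commutator_upperCentralSeries_top_le P i
  | succ j ih =>
    intro i
    show ⁅(⊤ : Subgroup P).lowerCentralSeries (j + 1), _⁆ ≤ _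
    rw [Subgroup.lowerCentralSeries_succ]
    apply three_subgroups
    · calc ⁅⁅(⊤ : Subgroup P), Zc P (i + (j + 1) + 1)⁆, Lc P j⁆
          ≤ ⁅Zc P (i + j + 1), Lc P j⁆ := by
            apply Subgroup.commutator_mono _ le_rfl
            rw [Subgroup.commutator_comm]
            exact Subgroup.commutator_upperCentralSeries_top_le P (i + j + 1)
        _ ≤ Zc P i := by
            rw [Subgroup.commutator_comm]; exact ih i
    · calc ⁅⁅Zc P (i + (j + 1) + 1), Lc P j⁆, (⊤ : Subgroup P)⁆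
          ≤ ⁅Zc P (i + 1), (⊤ : Subgroup P)⁆ := by
            apply Subgroup.commutator_mono _ le_rfl
            rw [Subgroup.commutator_comm]
            have := ih (i + 1)
            have e : i + 1 + j + 1 = i + (j + 1) + 1 := by ring
            rwa [e] at this
        _ ≤ Zc P i := Subgroup.commutator_upperCentralSeries_top_le P i

theorem comm_lcs_ucs {i j l : ℕ} (hl : l = i + j + 1) {y z : P}
    (hy : y ∈ Lc P j) (hz : z ∈ Zc P l) : ⁅y, z⁆ ∈ Zc P i := by
  subst hl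
  exact comm_lcs_ucs_le j i (Subgroup.commutator_mem_commutator hy hz)

/-- `x` commutes with `g` modulo the normal subgroup `N` -/
theorem comm_mem_iff (N : Subgroup P) [N.Normal] (x g : P) :
    ⁅x, g⁆ ∈ N ↔ (x : P ⧸ N) * g = g * x := by
  rw [← QuotientGroup.eq_one_iff, commutatorElement_def]
  simp only [QuotientGroup.mk_mul, QuotientGroup.mk_inv]
  rw [mul_inv_eq_one, mul_inv_eq_iff_eq_mul]

/-- if `x` commutes modulo `N` with `a` and `b`, it does so with `a b` -/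
theorem comm_mul_right (N : Subgroup P) [N.Normal] {x a b : P} (ha : ⁅x, a⁆ ∈ N)
    (hb : ⁅x, b⁆ ∈ N) : ⁅x, a * b⁆ ∈ N := by
  rw [comm_mem_iff] at ha hb ⊢
  simp only [QuotientGroup.mk_mul, QuotientGroup.mk_inv]
  rw [← mul_assoc, ha, mul_assoc, hb, mul_assoc]

theorem comm_mul_left (N : Subgroup P) [N.Normal] {x y a : P} (hx : ⁅x, a⁆ ∈ N)
    (hy : ⁅y, a⁆ ∈ N) : ⁅x * y, a⁆ ∈ N := by
  rw [comm_mem_iff] at hx hy ⊢
  simp only [QuotientGroup.mk_mul, QuotientGroup.mk_inv]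
  rw [mul_assoc, hy, ← mul_assoc, hx, mul_assoc]

theorem comm_inv_left (N : Subgroup P) [N.Normal] {x a : P} (hx : ⁅x, a⁆ ∈ N) :
    ⁅x⁻¹, a⁆ ∈ N := by
  rw [comm_mem_iff] at hx ⊢
  simp only [QuotientGroup.mk_mul, QuotientGroup.mk_inv]
  rw [inv_mul_eq_iff_eq_mul, ← mul_assoc, hx, mul_assoc, mul_inv_cancel, mul_one]

/-- the subgroup of the `x` with `[x, a] ∈ N` for all `a ∈ A` -/
def relC (N A : Subgroup P) [N.Normal] : Subgroup P where
  carrier := {x | ∀ a ∈ A, ⁅x, a⁆ ∈ N}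
  one_mem' := by intro a _; rw [commutatorElement_one_left]; exact one_mem _
  mul_mem' := by intro x y hx hy a ha; exact comm_mul_left N (hx a ha) (hy a ha)
  inv_mem' := by intro x hx a ha; exact comm_inv_left N (hx a ha)

theorem mem_relC {N A : Subgroup P} [N.Normal] {x : P} :
    x ∈ relC N A ↔ ∀ a ∈ A, ⁅x, a⁆ ∈ N := Iff.rfl

end Pool.Agent.Helper60.PCP
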