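import Pool.Agent.Helper19.PCPBound
import Pool.Agent.Helper60.PCP.Series
import Pool.Agent.Helper60.PCP.Count

/-!
Projections and traces of the components of a partial congruence partition of `P × P`.
(Problem MP_47f3f4_co.)
-/

namespace Pool.Agent.Helper60.PCP

open Pool.Agent.Helper19.PCP
open scoped commutatorElement Classical

variable {P : Type*} [Group P]

/-- first projection -/
def pr (U : Subgroup (P × P)) : Subgroup P := U.map (MonoidHom.fst P P)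

theorem mem_pr {U : Subgroup (P × P)} {a : P} : a ∈ pr U ↔ ∃ b, (a, b) ∈ U := by
  unfold pr
  rw [Subgroup.mem_map]
  constructor
  · rintro ⟨⟨x, y⟩, h, rfl⟩; exact ⟨y, h⟩
  · rintro ⟨b, h⟩; exact ⟨(a, b), h, rfl⟩

/-- the `x` with `(x, ζ) ∈ U` for some `ζ ∈ H` -/
def tr (U : Subgroup (P × P)) (H : Subgroup P) : Subgroup P :=
  (U ⊓ (⊤ : Subgroup P).prod H).map (MonoidHom.fst P P)

theorem mem_tr {U : Subgroup (P × P)} {H : Subgroup P} {x : P} :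
    x ∈ tr U H ↔ ∃ ζ ∈ H, (x, ζ) ∈ U := by
  unfold tr
  rw [Subgroup.mem_map]
  constructor
  · rintro ⟨⟨x, y⟩, h, rfl⟩
    rw [Subgroup.mem_inf, Subgroup.mem_prod] at h
    exact ⟨y, h.2.2, h.1⟩
  · rintro ⟨ζ, hζ, h⟩
    exact ⟨(x, ζ), ⟨h, Subgroup.mem_prod.mpr ⟨Subgroup.mem_top _, hζ⟩⟩, rfl⟩

theorem tr_le_pr {U : Subgroup (P × P)} {H : Subgroup P} : tr U H ≤ pr U := by
  intro x hx
  rw [mem_tr] at hx
  obtain ⟨ζ, _, h⟩ := hx
  exact mem_pr.mpr ⟨ζ, h⟩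

theorem tr_mono {U : Subgroup (P × P)} {H H' : Subgroup P} (h : H ≤ H') : tr U H ≤ tr U H' := by
  intro x hx
  rw [mem_tr] at hx ⊢
  obtain ⟨ζ, hζ, hx⟩ := hx
  exact ⟨ζ, h hζ, hx⟩

theorem comm_tr {U : Subgroup (P × P)} {x a : P} {j : ℕ} (hx : x ∈ tr U (Zc P j))
    (ha : a ∈ pr U) : ⁅x, a⁆ ∈ tr U (Zc P (j - 1)) := by
  rw [mem_tr] at hx ⊢
  rw [mem_pr] at ha
  obtain ⟨ζ, hζ, hx⟩ := hx
  obtain ⟨b, hb⟩ := ha
  refine ⟨⁅ζ, b⁆, ?_, ?_⟩
  · rcases j with _ | j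
    · rw [show Zc P 0 = ⊥ from rfl, Subgroup.mem_bot] at hζ
      subst hζ
      rw [commutatorElement_one_left]
      exact one_mem _
    · rw [Nat.add_sub_cancel]
      exact Subgroup.mem_upperCentralSeries_succ_iff.mp hζ b
  · have : ((⁅x, a⁆, ⁅ζ, b⁆) : P × P) = ⁅(x, ζ), (a, b)⁆ := rfl
    rw [this, commutatorElement_def]
    exact U.mul_mem (U.mul_mem (U.mul_mem hx hb) (U.inv_mem hx)) (U.inv_mem hb)

theorem conj_tr {U : Subgroup (P × P)} {H : Subgroup P} [H.Normal] {x a : P} (hx : x ∈ tr U H)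
    (ha : a ∈ pr U) : a * x * a⁻¹ ∈ tr U H := by
  rw [mem_tr] at hx ⊢
  rw [mem_pr] at ha
  obtain ⟨ζ, hζ, hx⟩ := hx
  obtain ⟨b, hb⟩ := ha
  refine ⟨b * ζ * b⁻¹, (inferInstance : H.Normal).conj_mem ζ hζ b, ?_⟩
  have : ((a * x * a⁻¹, b * ζ * b⁻¹) : P × P) = (a, b) * (x, ζ) * (a, b)⁻¹ := rfl
  rw [this]
  exact U.mul_mem (U.mul_mem hb hx) (U.inv_mem hb)

theorem pr_mul {U V : Subgroup (P × P)} (h : Subgroup.IsComplement' U V) (g : P) :
    ∃ a ∈ pr U, ∃ b ∈ pr V, a * b = g := by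
  obtain ⟨u, hu, v, hv, huv⟩ := exists_mul h (g, 1)
  exact ⟨u.1, mem_pr.mpr ⟨u.2, hu⟩, v.1, mem_pr.mpr ⟨v.2, hv⟩, by rw [← Prod.fst_mul, huv]⟩

theorem comm_of_pr (N : Subgroup P) [N.Normal] {U V : Subgroup (P × P)}
    (h : Subgroup.IsComplement' U V) {x : P} (hU : ∀ a ∈ pr U, ⁅x, a⁆ ∈ N)
    (hV : ∀ a ∈ pr V, ⁅x, a⁆ ∈ N) (g : P) : ⁅x, g⁆ ∈ N := by
  obtain ⟨a, ha, b, hb, rfl⟩ := pr_mul h g
  exact comm_mul_right N (hU a ha) (hV b hb)

/-- A `p`-group `A` normalising a nontrivial subgroup `X` centralises some `1 ≠ x ∈ X`. -/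
theorem exists_fixed [Finite P] {p : ℕ} [Fact p.Prime] (hP : IsPGroup p P) {A X : Subgroup P}
    (hX : ∀ a ∈ A, ∀ x ∈ X, a * x * a⁻¹ ∈ X) (hne : X ≠ ⊥) :
    ∃ x ∈ X, x ≠ 1 ∧ ∀ a ∈ A, ⁅x, a⁆ = 1 := by
  let act : MulAction A X :=
    { smul := fun a x => ⟨a.1 * x.1 * a.1⁻¹, hX a.1 a.2 x.1 x.2⟩
      one_smul := by
        intro x; apply Subtype.ext
        show (1 : P) * x.1 * (1 : P)⁻¹ = x.1
        simp
      mul_smul := by
        intro a b x; apply Subtype.ext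
        show (a.1 * b.1) * x.1 * (a.1 * b.1)⁻¹ = a.1 * (b.1 * x.1 * b.1⁻¹) * a.1⁻¹
        group }
  have hcard : p ∣ Nat.card X := by
    rcases (hP.to_subgroup X).card_eq_or_dvd with h | h
    · exact absurd (Subgroup.card_eq_one.mp h) hne
    · exact h
  have h1 : (1 : X) ∈ MulAction.fixedPoints A X := by
    intro a
    apply Subtype.ext
    show a.1 * 1 * a.1⁻¹ = 1
    simp
  obtain ⟨b, hb, hb1⟩ :=
    (hP.to_subgroup A).exists_fixed_point_of_prime_dvd_card_of_fixed_point X hcard h1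
  refine ⟨b.1, b.2, fun h => hb1 (Subtype.ext h.symm), fun a ha => ?_⟩
  have h2 := congrArg Subtype.val (hb ⟨a, ha⟩)
  have h3 : a * b.1 * a⁻¹ = b.1 := h2
  rw [commutatorElement_def, mul_inv_eq_one, mul_inv_eq_iff_eq_mul]
  rw [mul_inv_eq_iff_eq_mul] at h3
  exact h3.symm

/-- `U` is good: below `Z_m` the traces lie in the central series -/
def Good (m : ℕ) (U : Subgroup (P × P)) : Prop := ∀ j < m, tr U (Zc P j) ⊓ Zc P m ≤ Zc P j

theorem bad_witness [Finite P] {p : ℕ} [Fact p.Prime] (hP : IsPGroup p P) {m : ℕ}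
    {U : Subgroup (P × P)} (hb : ¬ Good m U) :
    ∃ j < m, ¬ (tr U (Zc P j) ⊓ Zc P m ⊓ relC (Zc P (j - 1)) (pr U) ≤ Zc P j) := by
  unfold Good at hb
  push Not at hb
  have hex : ∃ j, j < m ∧ ¬ (tr U (Zc P j) ⊓ Zc P m ≤ Zc P j) := by
    obtain ⟨j, hj, h⟩ := hb; exact ⟨j, hj, h⟩
  obtain ⟨hj, hjb⟩ := Nat.find_spec hex
  have hmin := fun i (hi : i < Nat.find hex) => Nat.find_min hex hi
  set j := Nat.find hex with hjdef
  refine ⟨j, hj, ?_⟩
  rcases Nat.eq_zero_or_pos j with h0 | h0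
  · rw [h0] at hjb ⊢
    have hne : tr U (Zc P 0) ⊓ Zc P m ≠ ⊥ := fun h => hjb (by rw [h]; exact bot_le)
    obtain ⟨x, hx, hx1, hxc⟩ := exists_fixed hP (A := pr U) (X := tr U (Zc P 0) ⊓ Zc P m) (by
      intro a ha x hx
      rw [Subgroup.mem_inf] at hx ⊢
      exact ⟨conj_tr hx.1 ha, (inferInstance : (Zc P m).Normal).conj_mem x hx.2 a⟩) hne
    intro hle
    have := hle (show x ∈ tr U (Zc P 0) ⊓ Zc P m ⊓ relC (Zc P (0 - 1)) (pr U) from
      ⟨hx, fun a ha => by rw [hxc a ha]; exact one_mem _⟩)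
    exact hx1 (Subgroup.mem_bot.mp this)
  · have hg : tr U (Zc P (j - 1)) ⊓ Zc P m ≤ Zc P (j - 1) := by
      have := hmin (j - 1) (by omega)
      push Not at this
      exact this (by omega)
    intro hle
    apply hjb
    intro x hx
    apply hle
    refine ⟨hx, fun a ha => ?_⟩
    apply hg
    exact ⟨comm_tr hx.1 ha, by
      rw [commutatorElement_def, mul_assoc, mul_assoc]
      exact (Zc P m).mul_mem hx.2 (by
        rw [← mul_assoc]
        exact (inferInstance : (Zc P m).Normal).conj_mem _ ((Zc P m).inv_mem hx.2) a)⟩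

end Pool.Agent.Helper60.PCP
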