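import Pool.Agent.Helper60.PCP.Bottom

/-!
The two bounds from below: components that meet `K × K` trivially, and the count with both
coordinates. (Problem MP_47f3f4_co.)
-/

namespace Pool.Agent.Helper60.PCP

open Pool.Agent.Helper19.PCP
open scoped commutatorElement Classical

variable {P : Type*} [Group P]

/-- exchange of the two factors -/
def sw (U : Subgroup (P × P)) : Subgroup (P × P) :=
  U.comap (MulEquiv.prodComm : P × P ≃* P × P).toMonoidHom

theorem mem_sw {U : Subgroup (P × P)} {g : P × P} : g ∈ sw U ↔ (g.2, g.1) ∈ U := Iff.rfl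

theorem sw_sw (U : Subgroup (P × P)) : sw (sw U) = U := by
  ext g; rw [mem_sw, mem_sw]

theorem sw_injective : Function.Injective (sw : Subgroup (P × P) → Subgroup (P × P)) :=
  Function.LeftInverse.injective sw_sw

theorem card_sw_inf (U : Subgroup (P × P)) (K : Subgroup P) :
    Nat.card (sw U ⊓ K.prod K : Subgroup (P × P)) = Nat.card (U ⊓ K.prod K : Subgroup (P × P)) := by
  refine Nat.card_congr ⟨fun x => ⟨(x.1.2, x.1.1), ?_⟩, fun x => ⟨(x.1.2, x.1.1), ?_⟩, ?_, ?_⟩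
  · exact ⟨x.2.1, Subgroup.mem_prod.mpr ⟨(Subgroup.mem_prod.mp x.2.2).2,
      (Subgroup.mem_prod.mp x.2.2).1⟩⟩
  · exact ⟨x.2.1, Subgroup.mem_prod.mpr ⟨(Subgroup.mem_prod.mp x.2.2).2,
      (Subgroup.mem_prod.mp x.2.2).1⟩⟩
  · intro x; rfl
  · intro x; rfl

theorem card_sw (U : Subgroup (P × P)) : Nat.card (sw U) = Nat.card U := by
  refine Nat.card_congr ⟨fun x => ⟨(x.1.2, x.1.1), x.2⟩, fun x => ⟨(x.1.2, x.1.1), x.2⟩, ?_, ?_⟩
  · intro x; rfl
  · intro x; rfl

theorem isPCP_sw {s : ℕ} {𝒰 : Finset (Subgroup (P × P))} (h : IsPCP s 𝒰) :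
    IsPCP s (𝒰.image sw) := by
  refine ⟨?_, ?_⟩
  · intro U hU
    obtain ⟨V, hV, rfl⟩ := Finset.mem_image.mp hU
    rw [card_sw]; exact h.1 V hV
  · intro U' hU' V' hV' hne
    obtain ⟨U, hU, rfl⟩ := Finset.mem_image.mp hU'
    obtain ⟨V, hV, rfl⟩ := Finset.mem_image.mp hV'
    rw [eq_bot_iff]
    rintro ⟨x, y⟩ ⟨h1, h2⟩
    have h3 : ((y, x) : P × P) ∈ U ⊓ V := ⟨h1, h2⟩
    rw [h.2 U hU V hV (fun e => hne (by rw [e])), Subgroup.mem_bot] at h3
    rw [Subgroup.mem_bot]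
    exact Prod.ext (congrArg Prod.snd h3) (congrArg Prod.fst h3)

theorem bad_count_sw [Finite P] {p : ℕ} [Fact p.Prime] (hP : IsPGroup p P) (m : ℕ)
    {𝒰 : Finset (Subgroup (P × P))} (h : IsPCP (Nat.card P) 𝒰) :
    (𝒰.filter fun U => ¬ Good m (sw U)).card * (p - 1) ≤ Nat.card (Zc P m) - 1 := by
  refine le_trans (Nat.mul_le_mul_right _ ?_) (bad_count hP m (isPCP_sw h))
  rw [← Finset.card_image_of_injective _ sw_injective]
  apply Finset.card_le_card
  intro U hU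
  obtain ⟨V, hV, rfl⟩ := Finset.mem_image.mp hU
  rw [Finset.mem_filter] at hV ⊢
  exact ⟨Finset.mem_image_of_mem _ hV.1, hV.2⟩

theorem map_f2_ne_top [Finite P] {m : ℕ} (hm : ∀ x y : P, ⁅x, y⁆ ∈ Zc P m) (hm1 : 1 ≤ m)
    {U : Subgroup (P × P)} (hU : Nat.card U = Nat.card P) (hg : Good m (sw U))
    (hlt : Nat.card (U ⊓ (Zc P m).prod (Zc P m) : Subgroup (P × P)) < Nat.card (Zc P m)) :
    U.map (f2 (Zc P m)) ≠ ⊤ := by
  intro htop
  have h1 := card_K_le (Zc P m) (U := sw U) (by rw [card_sw, hU])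
  rw [card_sw_inf] at h1
  have h2 : bar (Zc P m) (sw U) ≠ ⊥ := by
    intro hb
    rw [hb, Subgroup.card_bot, mul_one] at h1
    omega
  obtain ⟨q, hq, hq1⟩ : ∃ q ∈ bar (Zc P m) (sw U), q ≠ 1 := by
    by_contra hcon
    push Not at hcon
    exact h2 (eq_bot_iff.mpr fun q hq => Subgroup.mem_bot.mpr (hcon q hq))
  obtain ⟨x, rfl⟩ := QuotientGroup.mk_surjective q
  obtain ⟨y, hy, hyx⟩ := mem_bar.mp hq
  apply hq1
  rw [QuotientGroup.eq_one_iff]
  have hy2 : y ∈ Zc P m := by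
    apply mem_Zc_of_comm hm1
    intro g
    have hgt : (QuotientGroup.mk g : P ⧸ Zc P m) ∈ U.map (f2 (Zc P m)) := by
      rw [htop]; exact Subgroup.mem_top _
    obtain ⟨u, hu, hug⟩ := hgt
    have hug' : u.2⁻¹ * g ∈ Zc P m := QuotientGroup.eq.mp hug
    have hg2 : g = u.2 * (u.2⁻¹ * g) := by group
    rw [hg2]
    apply comm_mul_right
    · exact good_comm hm hm1 hg hy u.2 (mem_pr.mpr ⟨u.1, hu⟩)
    · exact comm_Zc' hm1 hug' y
  have : x = y * (y⁻¹ * x) := by group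
  rw [this]
  exact mul_mem hy2 hyx

theorem card_prod_self (K : Subgroup P) : Nat.card (K.prod K) = Nat.card K * Nat.card K := by
  rw [Nat.card_congr (Subgroup.prodEquiv K K).toEquiv, Nat.card_prod]

theorem large_count [Finite P] (K : Subgroup P)
    {𝒰 : Finset (Subgroup (P × P))} (h : IsPCP (Nat.card P) 𝒰) (e : ℕ) :
    (𝒰.filter fun U => e ≤ Nat.card (U ⊓ K.prod K : Subgroup (P × P))).card * (e - 1) ≤
      Nat.card K * Nat.card K - 1 := by
  rw [← card_prod_self]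
  apply count_subgroups _ (fun U => U ⊓ K.prod K)
  · intro U hU V hV hne
    rw [Finset.mem_filter] at hU hV
    rw [eq_bot_iff, ← h.2 U hU.1 V hV.1 hne]
    exact le_inf (inf_le_left.trans inf_le_left) (inf_le_right.trans inf_le_left)
  · intro U _; exact inf_le_right
  · intro U hU; exact (Finset.mem_filter.mp hU).2

theorem trivial_count [Finite P] [Nontrivial P] {p : ℕ} [Fact p.Prime] (hP : IsPGroup p P)
    {m : ℕ} (hm : ∀ x y : P, ⁅x, y⁆ ∈ Zc P m) (hm1 : 1 ≤ m)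
    {𝒰 : Finset (Subgroup (P × P))} (h : IsPCP (Nat.card P) 𝒰) :
    (𝒰.filter fun U => U ⊓ (Zc P m).prod (Zc P m) = ⊥).card ≤ 1 := by
  rw [Finset.card_le_one]
  intro U hU V hV
  by_contra hne
  rw [Finset.mem_filter] at hU hV
  have hc := compl_of_mem h hU.1 hV.1 hne
  -- `U` and `V` are abelian
  have hab : ∀ W : Subgroup (P × P), W ⊓ (Zc P m).prod (Zc P m) = ⊥ →
      ∀ a ∈ W, ∀ b ∈ W, a * b = b * a := by
    intro W hW a ha b hb
    have h1 : ⁅a, b⁆ ∈ W ⊓ (Zc P m).prod (Zc P m) := by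
      refine ⟨?_, Subgroup.mem_prod.mpr ⟨hm _ _, hm _ _⟩⟩
      rw [commutatorElement_def]
      exact W.mul_mem (W.mul_mem (W.mul_mem ha hb) (W.inv_mem ha)) (W.inv_mem hb)
    rw [hW, Subgroup.mem_bot] at h1
    exact commutatorElement_eq_one_iff_mul_comm.mp h1
  have hcn : Nontrivial (Subgroup.center P) := hP.center_nontrivial
  obtain ⟨z, hz⟩ := exists_ne (1 : Subgroup.center P)
  obtain ⟨u, hu, v, hv, huv⟩ := exists_mul hc ((z.1, 1) : P × P)
  have hzc : ∀ g : P × P, g * (u * v) = (u * v) * g := by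
    intro g
    rw [huv]
    exact Prod.ext (Subgroup.mem_center_iff.mp z.2 g.1) (by simp)
  -- `u` is central
  have huc : ∀ g : P × P, g * u = u * g := by
    have h2 : ∀ b ∈ V, b * u = u * b := by
      intro b hb
      have h3 := hzc b
      have h4 := hab V hV.2 v hv b hb
      rw [mul_assoc, h4, ← mul_assoc, ← mul_assoc] at h3
      exact mul_right_cancel h3
    intro g
    obtain ⟨a, ha, b, hb, hab'⟩ := exists_mul hc g
    rw [← hab', mul_assoc, h2 b hb, ← mul_assoc, hab U hU.2 a ha u hu, mul_assoc]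
  have hvc : ∀ g : P × P, g * v = v * g := by
    intro g
    have h3 := hzc g
    rw [← mul_assoc, huc g, mul_assoc, mul_assoc] at h3
    exact mul_left_cancel h3
  have hcen : ∀ w : P × P, (∀ g, g * w = w * g) → w ∈ (Zc P m).prod (Zc P m) := by
    intro w hw
    have hle : Subgroup.center P ≤ Zc P m := by
      rw [← Subgroup.upperCentralSeries_one]
      exact Subgroup.upperCentralSeries_mono P hm1
    refine Subgroup.mem_prod.mpr ⟨hle ?_, hle ?_⟩
    · rw [Subgroup.mem_center_iff]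
      intro g
      exact congrArg Prod.fst (hw (g, 1))
    · rw [Subgroup.mem_center_iff]
      intro g
      exact congrArg Prod.snd (hw (1, g))
  have hu1 : u ∈ U ⊓ (Zc P m).prod (Zc P m) := ⟨hu, hcen u huc⟩
  have hv1 : v ∈ V ⊓ (Zc P m).prod (Zc P m) := ⟨hv, hcen v hvc⟩
  rw [hU.2, Subgroup.mem_bot] at hu1
  rw [hV.2, Subgroup.mem_bot] at hv1
  rw [hu1, hv1, mul_one] at huv
  exact hz (Subtype.ext (congrArg Prod.fst huv).symm)

/-- first bound -/
theorem bound_zero [Finite P] [Nontrivial P] {p : ℕ} [Fact p.Prime] (hP : IsPGroup p P)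
    {m : ℕ} (hm : ∀ x y : P, ⁅x, y⁆ ∈ Zc P m) (hm1 : 1 ≤ m)
    {𝒰 : Finset (Subgroup (P × P))} (h : IsPCP (Nat.card P) 𝒰) :
    (𝒰.card - 1) * (p - 1) ≤ Nat.card (Zc P m) * Nat.card (Zc P m) - 1 := by
  have h1 := trivial_count hP hm hm1 h
  have h2 := large_count (Zc P m) h p
  refine le_trans (Nat.mul_le_mul_right _ ?_) h2
  have h3 := Finset.card_filter_add_card_filter_not (s := 𝒰)
    (fun U => U ⊓ (Zc P m).prod (Zc P m) = ⊥)
  have h4 : (𝒰.filter fun U => ¬ U ⊓ (Zc P m).prod (Zc P m) = ⊥).card ≤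
      (𝒰.filter fun U => p ≤ Nat.card (U ⊓ (Zc P m).prod (Zc P m) : Subgroup (P × P))).card := by
    apply Finset.card_le_card
    intro U hU
    rw [Finset.mem_filter] at hU ⊢
    refine ⟨hU.1, ?_⟩
    have hPP : IsPGroup p (P × P) := by
      obtain ⟨n, hn⟩ := IsPGroup.iff_card.mp hP
      apply IsPGroup.of_card (n := n + n)
      rw [Nat.card_prod, hn, pow_add]
    exact le_card_of_ne_bot hPP hU.2
  omega

end Pool.Agent.Helper60.PCP
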