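import Pool.Agent.Helper19.PCPBound

/-!
Groups of exponent four in which all involutions are central: the number of elements is at most
the cube of the number of solutions of `x ^ 2 = 1` (the group form of the theorem of Chevalley
and Warning for quadratic maps). (Problem MP_47f3f4_co.)
-/

namespace Pool.Agent.Helper60.PCP

open scoped Classical

section Chars

variable {K : Type*} [CommGroup K]

theorem enough_two : HasEnoughRootsOfUnity ℤ 2 where
  prim := ⟨-1, IsPrimitiveRoot.neg_one 0 (by norm_num)⟩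
  cyc := rootsOfUnity.isCyclic ℤ 2

theorem enough (h : ∀ x : K, x ^ 2 = 1) : HasEnoughRootsOfUnity ℤ (Monoid.exponent K) := by
  have := enough_two
  exact HasEnoughRootsOfUnity.of_dvd ℤ (Monoid.exponent_dvd_of_forall_pow_eq_one h)

theorem finite_chars [Finite K] (h : ∀ x : K, x ^ 2 = 1) : Finite (K →* ℤˣ) := by
  have := enough h
  exact Finite.of_equiv _ (CommGroup.monoidHom_mulEquiv_of_hasEnoughRootsOfUnity K ℤ).some.symm.toEquiv

theorem card_chars [Finite K] (h : ∀ x : K, x ^ 2 = 1) : Nat.card (K →* ℤˣ) = Nat.card K := by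
  have := enough h
  exact CommGroup.card_monoidHom_of_hasEnoughRootsOfUnity K ℤ

theorem sum_chars [Finite K] (h : ∀ x : K, x ^ 2 = 1) [Fintype (K →* ℤˣ)] (x : K) :
    ∑ l : K →* ℤˣ, ((l x : ℤˣ) : ℤ) = if x = 1 then (Nat.card K : ℤ) else 0 := by
  split_ifs with hx
  · subst hx
    simp only [map_one, Units.val_one, Finset.sum_const, mul_one, nsmul_eq_mul]
    rw [← card_chars h, Nat.card_eq_fintype_card, Finset.card_univ]
  · have := enough h
    obtain ⟨l, hl⟩ := CommGroup.exists_apply_ne_one_of_hasEnoughRootsOfUnity K ℤ hx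
    have h1 : ∑ m : K →* ℤˣ, ((m x : ℤˣ) : ℤ) = ∑ m : K →* ℤˣ, (((l * m) x : ℤˣ) : ℤ) :=
      (Equiv.sum_comp (Equiv.mulLeft l) (fun m : K →* ℤˣ => ((m x : ℤˣ) : ℤ))).symm
    have h2 : ((l x : ℤˣ) : ℤ) = -1 := by
      rcases Int.units_eq_one_or (l x) with h3 | h3
      · exact absurd h3 hl
      · rw [h3]; rfl
    have h3 : ∑ m : K →* ℤˣ, (((l * m) x : ℤˣ) : ℤ) = -∑ m : K →* ℤˣ, ((m x : ℤˣ) : ℤ) := by
      rw [← Finset.sum_neg_distrib]
      refine Finset.sum_congr rfl fun m _ => ?_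
      rw [MonoidHom.mul_apply, Units.val_mul, h2]; ring
    omega

end Chars

variable {G : Type*} [Group G]

/-- `G` has exponent dividing four and all solutions of `x ^ 2 = 1` are central. -/
def CenInv (G : Type*) [Group G] : Prop :=
  (∀ x : G, x ^ 4 = 1) ∧ ∀ x : G, x ^ 2 = 1 → ∀ y : G, y * x = x * y

/-- The subgroup of all `x` with `x ^ 2 = 1`. -/
def Om (h : CenInv G) : Subgroup G where
  carrier := {x | x ^ 2 = 1}
  mul_mem' := by
    intro a b ha hb
    change a ^ 2 = 1 at ha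
    change b ^ 2 = 1 at hb
    change (a * b) ^ 2 = 1
    have h1 : b * a = a * b := h.2 a ha b
    calc (a * b) ^ 2 = a * (b * a) * b := by rw [sq]; group
      _ = a ^ 2 * b ^ 2 := by rw [h1, sq, sq]; group
      _ = 1 := by rw [ha, hb, one_mul]
  one_mem' := by simp
  inv_mem' := by
    intro a ha
    change a ^ 2 = 1 at ha
    change a⁻¹ ^ 2 = 1
    rw [inv_pow, ha, inv_one]

theorem mem_Om (h : CenInv G) (x : G) : x ∈ Om h ↔ x ^ 2 = 1 := Iff.rfl

theorem Om_central (h : CenInv G) {x : G} (hx : x ∈ Om h) (y : G) : y * x = x * y := h.2 x hx y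

/-- commutative group structure on `Om` -/
@[reducible] def commOm (h : CenInv G) : CommGroup (Om h) :=
  { (inferInstance : Group (Om h)) with
    mul_comm := fun a b => Subtype.ext (h.2 b b.2 a) }

/-- the square -/
def sqK (h : CenInv G) (g : G) : Om h :=
  ⟨g ^ 2, by rw [mem_Om, ← pow_mul]; exact h.1 g⟩

theorem cm_mem (h : CenInv G) (u g : G) : u⁻¹ * g⁻¹ * u * g ∈ Om h := by
  have h1 : u⁻¹ * g⁻¹ * u * g = (u⁻¹) ^ 2 * (u * g⁻¹) ^ 2 * g ^ 2 := by
    rw [sq, sq, sq]; group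
  rw [h1]
  exact mul_mem (mul_mem (sqK h _).2 (sqK h _).2) (sqK h _).2

/-- the commutator map as a homomorphism in the second variable -/
def cmHom (h : CenInv G) (u : G) : G →* Om h where
  toFun g := ⟨u⁻¹ * g⁻¹ * u * g, cm_mem h u g⟩
  map_one' := by apply Subtype.ext; simp
  map_mul' := by
    intro g k
    apply Subtype.ext
    change u⁻¹ * (g * k)⁻¹ * u * (g * k) = u⁻¹ * g⁻¹ * u * g * (u⁻¹ * k⁻¹ * u * k)
    have h1 := Om_central h (cm_mem h u g) k
    have h2 := Om_central h (cm_mem h u g) (u⁻¹ * k⁻¹ * u * k)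
    rw [← h2]
    calc u⁻¹ * (g * k)⁻¹ * u * (g * k) = u⁻¹ * k⁻¹ * u * ((u⁻¹ * g⁻¹ * u * g) * k) := by group
      _ = u⁻¹ * k⁻¹ * u * (k * (u⁻¹ * g⁻¹ * u * g)) := by rw [h1]
      _ = _ := by group

theorem sq_mul_sq (h : CenInv G) (g u : G) :
    sqK h g * sqK h (g * u) = sqK h u * cmHom h u g := by
  apply Subtype.ext
  change g ^ 2 * (g * u) ^ 2 = u ^ 2 * (u⁻¹ * g⁻¹ * u * g)
  have h1 := Om_central h (cm_mem h u g) u
  have h4 := h.1 g
  calc g ^ 2 * (g * u) ^ 2 = g ^ 4 * (u * (u⁻¹ * g⁻¹ * u * g) * u) := by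
        rw [sq, sq, pow_succ, pow_succ, sq]; group
    _ = u ^ 2 * (u⁻¹ * g⁻¹ * u * g) := by
        rw [h4, one_mul, mul_assoc, ← h1, ← mul_assoc, ← sq]

theorem dvd_sum_of_invariant [Fintype G] (K : Subgroup G) (F : G → ℤ)
    (hF : ∀ u, ∀ k ∈ K, F (u * k) = F u) : (Nat.card K : ℤ) ∣ ∑ u, F u := by
  have hfin : Fintype K := Fintype.ofFinite K
  have hfinq : Fintype (G ⧸ K) := Fintype.ofFinite _
  let φ : (G ⧸ K) × K → G := fun a => a.1.out * a.2
  have hφ : Function.Bijective φ := by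
    constructor
    · rintro ⟨a, k⟩ ⟨b, l⟩ hab
      have h1 : (a.out * k : G) = b.out * l := hab
      have h2 : a = b := by
        have h3 : ((a.out * k : G) : G ⧸ K) = ((b.out * l : G) : G ⧸ K) := by rw [h1]
        rwa [QuotientGroup.mk_mul_of_mem _ k.2, QuotientGroup.mk_mul_of_mem _ l.2,
          QuotientGroup.out_eq', QuotientGroup.out_eq'] at h3
      subst h2
      have h4 : (k : G) = l := mul_left_cancel h1
      rw [Subtype.ext h4]
    · intro u
      have h1 : (u : G ⧸ K).out⁻¹ * u ∈ K := by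
        rw [← QuotientGroup.eq, QuotientGroup.out_eq']
      exact ⟨⟨(u : G ⧸ K), ⟨_, h1⟩⟩, by simp [φ]⟩
  have h1 : ∑ u, F u = ∑ a : (G ⧸ K) × K, F (φ a) :=
    (Equiv.sum_comp (Equiv.ofBijective φ hφ) F).symm
  rw [h1, Fintype.sum_prod_type]
  apply Finset.dvd_sum
  intro a _
  have h2 : ∀ k : K, F (φ (a, k)) = F a.out := fun k => hF _ _ k.2
  simp only [h2, Finset.sum_const, nsmul_eq_mul]
  rw [Finset.card_univ, ← Nat.card_eq_fintype_card]
  exact dvd_mul_right _ _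

theorem two_pow_dvd {n : ℕ} {S : ℤ} (h : (2 : ℤ) ^ n ∣ S ^ 2) : (2 : ℤ) ^ ((n + 1) / 2) ∣ S := by
  obtain ⟨j, hj | hj⟩ := Nat.even_or_odd' n
  · rw [hj] at h
    have : (n + 1) / 2 = j := by omega
    rw [this]
    rw [mul_comm, pow_mul] at h
    exact (Int.pow_dvd_pow_iff (by norm_num)).mp h
  · have h0 : (n + 1) / 2 = j + 1 := by omega
    rw [h0]
    rw [hj] at h
    have h1 : ((2 : ℤ) ^ j) ^ 2 ∣ S ^ 2 := by
      refine dvd_trans ?_ h
      rw [← pow_mul]
      exact pow_dvd_pow _ (by omega)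
    obtain ⟨t, ht⟩ := (Int.pow_dvd_pow_iff (by norm_num)).mp h1
    rw [ht] at h ⊢
    have h2 : (2 : ℤ) ^ (2 * j) * 2 ∣ (2 : ℤ) ^ (2 * j) * t ^ 2 := by
      have e1 : (2 : ℤ) ^ (2 * j) * 2 = 2 ^ (2 * j + 1) := (pow_succ _ _).symm
      have e2 : (2 : ℤ) ^ (2 * j) * t ^ 2 = (2 ^ j * t) ^ 2 := by
        rw [mul_pow, ← pow_mul, mul_comm j 2]
      rw [e1, e2]; exact h
    have h3 : (2 : ℤ) ∣ t ^ 2 := (mul_dvd_mul_iff_left (by positivity)).mp h2
    have h4 : (2 : ℤ) ∣ t := Int.prime_two.dvd_of_dvd_pow h3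
    rw [pow_succ]
    exact mul_dvd_mul_left _ h4

/-- The key inequality. -/
theorem card_le_cube [Finite G] (h : CenInv G) : Nat.card G ≤ Nat.card (Om h) ^ 3 := by
  have hfin : Fintype G := Fintype.ofFinite G
  letI : CommGroup (Om h) := commOm h
  have hK2 : ∀ x : Om h, x ^ 2 = 1 := fun x => Subtype.ext x.2
  have hfc : Finite (Om h →* ℤˣ) := finite_chars hK2
  have hftc : Fintype (Om h →* ℤˣ) := Fintype.ofFinite _
  have hp : IsPGroup 2 G := fun g => ⟨2, h.1 g⟩
  have hprime : Fact (Nat.Prime 2) := ⟨Nat.prime_two⟩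
  obtain ⟨a, ha⟩ := IsPGroup.iff_card.mp hp
  obtain ⟨k, hk⟩ := IsPGroup.iff_card.mp (hp.to_subgroup (Om h))
  -- the sums
  let S : (Om h →* ℤˣ) → ℤ := fun l => ∑ g : G, ((l (sqK h g) : ℤˣ) : ℤ)
  have hS : ∀ l, (2 : ℤ) ^ (a + k) ∣ S l ^ 2 := by
    intro l
    have h1 : S l ^ 2 = ∑ u : G, ((l (sqK h u) : ℤˣ) : ℤ) *
        ∑ g : G, ((l (cmHom h u g) : ℤˣ) : ℤ) := by
      rw [sq]
      simp only [S]
      rw [Finset.sum_mul]
      have h2 : ∀ g : G, ((l (sqK h g) : ℤˣ) : ℤ) * ∑ v : G, ((l (sqK h v) : ℤˣ) : ℤ) =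
          ∑ u : G, ((l (sqK h u) : ℤˣ) : ℤ) * ((l (cmHom h u g) : ℤˣ) : ℤ) := by
        intro g
        rw [← Equiv.sum_comp (Equiv.mulLeft g) (fun v => ((l (sqK h v) : ℤˣ) : ℤ)),
          Finset.mul_sum]
        refine Finset.sum_congr rfl fun u _ => ?_
        rw [Equiv.coe_mulLeft, ← Units.val_mul, ← Units.val_mul, ← map_mul, ← map_mul,
          sq_mul_sq]
      simp only [h2]
      rw [Finset.sum_comm]
      refine Finset.sum_congr rfl fun u _ => ?_
      rw [Finset.mul_sum]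
    have h3 : ∀ u : G, ∑ g : G, ((l (cmHom h u g) : ℤˣ) : ℤ) =
        if ((Units.coeHom ℤ).comp (l.comp (cmHom h u))) = 1 then (Fintype.card G : ℤ) else 0 := by
      intro u
      have h30 := sum_hom_units ((Units.coeHom ℤ).comp (l.comp (cmHom h u)))
      rw [Nat.cast_ite, Nat.cast_zero] at h30
      exact h30
    have h4 : S l ^ 2 = (Fintype.card G : ℤ) * ∑ u : G,
        if ((Units.coeHom ℤ).comp (l.comp (cmHom h u))) = 1 then ((l (sqK h u) : ℤˣ) : ℤ) else 0 := by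
      rw [h1, Finset.mul_sum]
      refine Finset.sum_congr rfl fun u _ => ?_
      rw [h3 u]
      split_ifs
      · ring
      · ring
    have h5 : (Nat.card (Om h) : ℤ) ∣ ∑ u : G,
        if ((Units.coeHom ℤ).comp (l.comp (cmHom h u))) = 1 then ((l (sqK h u) : ℤˣ) : ℤ) else 0 := by
      apply dvd_sum_of_invariant
      intro u x hx
      have h6 : cmHom h (u * x) = cmHom h u := by
        ext g
        change (u * x)⁻¹ * g⁻¹ * (u * x) * g = u⁻¹ * g⁻¹ * u * g
        have h7 := Om_central h hx g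
        calc (u * x)⁻¹ * g⁻¹ * (u * x) * g = x⁻¹ * (u⁻¹ * g⁻¹ * u * (x * g)) := by group
          _ = x⁻¹ * ((u⁻¹ * g⁻¹ * u * g) * x) := by rw [← h7]; group
          _ = u⁻¹ * g⁻¹ * u * g := by rw [Om_central h hx]; group
      have h8 : sqK h (u * x) = sqK h u := by
        apply Subtype.ext
        change (u * x) ^ 2 = u ^ 2
        have h9 : x ^ 2 = 1 := hx
        calc (u * x) ^ 2 = u * (x * u) * x := by rw [sq]; group
          _ = u * (u * x) * x := by rw [Om_central h hx u]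
          _ = u ^ 2 * x ^ 2 := by rw [sq, sq]; group
          _ = u ^ 2 := by rw [h9, mul_one]
      rw [h6, h8]
    rw [h4, pow_add]
    refine mul_dvd_mul ?_ ?_
    · rw [← Nat.card_eq_fintype_card, ha]; push_cast; exact dvd_rfl
    · rw [hk] at h5; push_cast at h5; exact h5
  have hsum : ∑ l, S l = (Nat.card (Om h) : ℤ) * (Nat.card (Om h) : ℤ) := by
    simp only [S]
    rw [Finset.sum_comm]
    have h1 : ∀ g : G, ∑ l : Om h →* ℤˣ, ((l (sqK h g) : ℤˣ) : ℤ) =
        if g ∈ Om h then (Nat.card (Om h) : ℤ) else 0 := by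
      intro g
      rw [sum_chars hK2]
      have h2 : sqK h g = 1 ↔ g ∈ Om h := by
        rw [Subtype.ext_iff]
        exact Iff.rfl
      simp only [h2]
    simp only [h1]
    rw [← Finset.sum_filter, Finset.sum_const, nsmul_eq_mul]
    congr 2
    rw [Nat.card_eq_fintype_card, Fintype.card_subtype]
  have hdvd : (2 : ℤ) ^ ((a + k + 1) / 2) ∣ (2 : ℤ) ^ (2 * k) := by
    have h1 : (2 : ℤ) ^ ((a + k + 1) / 2) ∣ ∑ l, S l :=
      Finset.dvd_sum fun l _ => two_pow_dvd (hS l)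
    rw [hsum, hk] at h1
    push_cast at h1
    rwa [two_mul, pow_add]
  have h6 : (a + k + 1) / 2 ≤ 2 * k := by
    have h7 : (2 : ℕ) ^ ((a + k + 1) / 2) ∣ 2 ^ (2 * k) := by exact_mod_cast hdvd
    exact (Nat.pow_dvd_pow_iff_le_right (by norm_num)).mp h7
  rw [ha, hk, ← pow_mul]
  exact Nat.pow_le_pow_right (by norm_num) (by omega)

end Pool.Agent.Helper60.PCP
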