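import Pool.Agent.Helper60.PCP.Suz

/-!
The exact value of `T(P × P)` for the Suzuki 2-groups. (Problem MP_47f3f4_co.)
-/

namespace Pool.Agent.Helper60.PCP

open Pool.Agent.Helper19.PCP
open scoped Classical

variable {P : Type*} [Group P]

theorem cenInv_prod (h : CenInv P) : CenInv (P × P) := by
  refine ⟨fun x => ?_, fun x hx y => ?_⟩
  · exact Prod.ext (h.1 x.1) (h.1 x.2)
  · have h1 := congrArg Prod.fst hx
    have h2 := congrArg Prod.snd hx
    exact Prod.ext (h.2 x.1 h1 y.1) (h.2 x.2 h2 y.2)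

theorem cenInv_sub {G : Type*} [Group G] (h : CenInv G) (U : Subgroup G) : CenInv U := by
  refine ⟨fun x => Subtype.ext ?_, fun x hx y => Subtype.ext ?_⟩
  · exact h.1 x
  · have h1 : (x : G) ^ 2 = 1 := congrArg Subtype.val hx
    exact h.2 x h1 y

theorem card_Om_sub {G : Type*} [Group G] (h : CenInv G) (U : Subgroup G) :
    Nat.card (Om (cenInv_sub h U)) = Nat.card (U ⊓ Om h : Subgroup G) := by
  refine Nat.card_congr ⟨fun x => ⟨x.1.1, x.1.2, ?_⟩, fun x => ⟨⟨x.1, x.2.1⟩, ?_⟩, ?_, ?_⟩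
  · exact congrArg Subtype.val (show (x.1 : U) ^ 2 = 1 from x.2)
  · exact Subtype.ext (show (x.1 : G) ^ 2 = 1 from x.2.2)
  · intro x; rfl
  · intro x; rfl

theorem card_Om_prod (h : CenInv P) :
    Nat.card (Om (cenInv_prod h)) = Nat.card (Om h) * Nat.card (Om h) := by
  rw [← Nat.card_prod]
  refine Nat.card_congr ⟨fun x => (⟨x.1.1, ?_⟩, ⟨x.1.2, ?_⟩), fun x => ⟨(x.1.1, x.2.1), ?_⟩,
    ?_, ?_⟩
  · exact congrArg Prod.fst (show (x.1 : P × P) ^ 2 = 1 from x.2)
  · exact congrArg Prod.snd (show (x.1 : P × P) ^ 2 = 1 from x.2)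
  · exact Prod.ext (show x.1.1 ^ 2 = 1 from x.1.2) (show x.2.1 ^ 2 = 1 from x.2.2)
  · intro x; rfl
  · intro x; rfl

/-- Upper bound when each member of the partition has at least `q` solutions of `x ^ 2 = 1`. -/
theorem upper_aux [Finite P] [Nontrivial P] (h : CenInv P)
    (hU : ∀ U : Subgroup (P × P), Nat.card U = Nat.card P →
      Nat.card (Om h) ≤ Nat.card (U ⊓ Om (cenInv_prod h) : Subgroup (P × P))) :
    T (P × P) ≤ Nat.card (Om h) + 1 := by
  apply T_prod_le
  intro 𝒰 hpcp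
  have h1 := card_mul_le 𝒰 hpcp.2 (Om (cenInv_prod h)) (Nat.card (Om h))
    (fun U hUm => hU U (hpcp.1 U hUm))
  rw [card_Om_prod h] at h1
  have h2 : 2 ≤ Nat.card (Om h) := by
    rw [Nat.succ_le_iff, Finite.one_lt_card_iff_nontrivial]
    obtain ⟨x, hx⟩ := exists_ne (1 : P)
    by_cases hx2 : x ^ 2 = 1
    · exact ⟨⟨x, hx2⟩, 1, fun e => hx (congrArg Subtype.val e)⟩
    · refine ⟨⟨x ^ 2, ?_⟩, 1, fun e => hx2 (congrArg Subtype.val e)⟩
      rw [mem_Om, ← pow_mul]; exact h.1 x
  obtain ⟨q, hq⟩ : ∃ q, Nat.card (Om h) = q + 1 := ⟨Nat.card (Om h) - 1, by omega⟩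
  rw [hq] at h1 h2 ⊢
  have h3 : 0 < q := by omega
  have h4 : (q + 1) * (q + 1) - 1 = (q + 1 + 1) * q := by
    have : (q + 1) * (q + 1) = (q + 1 + 1) * q + 1 := by ring
    omega
  rw [h4, Nat.add_sub_cancel] at h1
  exact Nat.le_of_mul_le_mul_right h1 h3

/-- Upper bound for order `q ^ 3`. -/
theorem upper_cube [Finite P] [Nontrivial P] (h : CenInv P)
    (hP : Nat.card P = Nat.card (Om h) ^ 3) : T (P × P) ≤ Nat.card (Om h) + 1 := by
  apply upper_aux h
  intro U hU
  have h1 := card_le_cube (cenInv_sub (cenInv_prod h) U)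
  rw [card_Om_sub (cenInv_prod h) U, hU, hP] at h1
  exact (Nat.pow_le_pow_iff_left (by norm_num)).mp h1

/-- Upper bound for order `q ^ 2` when squaring is injective modulo the involutions. -/
theorem upper_sq [Finite P] [Nontrivial P] (h : CenInv P)
    (hP : Nat.card P = Nat.card (Om h) ^ 2) (hinj : ∀ x y : P, x ^ 2 = y ^ 2 → x⁻¹ * y ∈ Om h) :
    T (P × P) ≤ Nat.card (Om h) + 1 := by
  apply upper_aux h
  intro U hU
  set K : Subgroup (P × P) := U ⊓ Om (cenInv_prod h) with hK
  have hfin : Fintype (P × P) := Fintype.ofFinite _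
  -- the squaring map has fibres of size at most `|K|`
  have h1 : Nat.card U ≤ Nat.card K * Nat.card K := by
    let s : Finset (P × P) := Finset.univ.filter (fun g => g ∈ U)
    let t : Finset (P × P) := Finset.univ.filter (fun g => g ∈ K)
    have hs : s.card = Nat.card U := by
      rw [Nat.card_eq_fintype_card, Fintype.card_subtype]
    have ht : t.card = Nat.card K := by
      rw [Nat.card_eq_fintype_card, Fintype.card_subtype]
    rw [← hs, ← ht]
    apply Finset.card_le_mul_card_image_of_maps_to (f := fun g : P × P => g ^ 2)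
    · intro g hg
      simp only [s, t, Finset.mem_filter, Finset.mem_univ, true_and] at hg ⊢
      refine Subgroup.mem_inf.mpr ⟨pow_mem hg 2, ?_⟩
      rw [mem_Om, ← pow_mul]
      exact (cenInv_prod h).1 g
    · intro b _
      by_cases hb : ∃ g ∈ s, g ^ 2 = b
      · obtain ⟨g, hg, hgb⟩ := hb
        apply Finset.card_le_card_of_injOn (fun u => g⁻¹ * u)
        · intro u hu
          simp only [s, t, Finset.coe_filter, Finset.mem_filter, Finset.mem_univ, true_and] at hg hu ⊢
          refine Subgroup.mem_inf.mpr ⟨mul_mem (inv_mem hg) hu.1, ?_⟩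
          have h2 : g ^ 2 = u ^ 2 := by rw [hgb, hu.2]
          have h3 := hinj g.1 u.1 (congrArg Prod.fst h2)
          have h4 := hinj g.2 u.2 (congrArg Prod.snd h2)
          exact Prod.ext h3 h4
        · intro u _ v _ huv
          exact mul_left_cancel huv
      · push Not at hb
        have : {a ∈ s | a ^ 2 = b} = ∅ := by
          rw [Finset.filter_eq_empty_iff]
          intro g hg
          exact hb g hg
        rw [this]; simp
  rw [hU, hP, ← sq] at h1
  exact (Nat.pow_le_pow_iff_left (by norm_num)).mp h1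

/-- `ξ` permutes the involutions of `P` transitively. -/
def Trans (ξ : MulAut P) : Prop :=
  ∀ x y : P, x ^ 2 = 1 → x ≠ 1 → y ^ 2 = 1 → y ≠ 1 → ∃ k : ℤ, (ξ ^ k) x = y

/-- the elements with square `z` -/
noncomputable def Fib [Fintype P] (z : P) : Finset P := Finset.univ.filter (fun g => g ^ 2 = z)

theorem mem_Fib [Fintype P] (z g : P) : g ∈ Fib z ↔ g ^ 2 = z := by
  simp [Fib]

/-- Counting the elements by their squares. -/
theorem fib_count [Fintype P] (h : CenInv P) (ξ : MulAut P) (hξ : Trans ξ) {w : P}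
    (hw : w ^ 2 = 1) (hw1 : w ≠ 1) :
    Nat.card P = Nat.card (Om h) + (Nat.card (Om h) - 1) * (Fib w).card := by
  set q := Nat.card (Om h) with hq
  let O : Finset P := Finset.univ.filter (fun z => z ^ 2 = 1)
  have hO : O.card = q := by
    rw [hq, Nat.card_eq_fintype_card, Fintype.card_subtype]; rfl
  have hOe : (O.erase 1).card = q - 1 := by
    rw [Finset.card_erase_of_mem (by simp [O]), hO]
  -- fibres over involutions have constant size
  have hconst : ∀ z : P, z ^ 2 = 1 → z ≠ 1 → (Fib w).card = (Fib z).card := by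
    intro z hz hz1
    obtain ⟨k, hk⟩ := hξ w z hw hw1 hz hz1
    refine Finset.card_bij (fun g _ => (ξ ^ k) g) ?_ ?_ ?_
    · intro g hg
      rw [mem_Fib] at hg ⊢
      rw [← map_pow, hg, hk]
    · intro g _ g' _ hgg
      exact (ξ ^ k).injective hgg
    · intro g hg
      rw [mem_Fib] at hg
      refine ⟨(ξ ^ k).symm g, ?_, by simp⟩
      rw [mem_Fib, ← map_pow, hg, ← hk]
      simp
  -- the count
  have hsum : (Finset.univ.filter (fun g : P => g ^ 2 ≠ 1)).card = (O.erase 1).card * (Fib w).card := by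
    rw [Finset.card_eq_sum_card_fiberwise (f := fun g : P => g ^ 2) (t := O.erase 1)]
    · rw [← smul_eq_mul, ← Finset.sum_const]
      refine Finset.sum_congr rfl fun z hz => ?_
      simp only [O, Finset.mem_erase, Finset.mem_filter, Finset.mem_univ, true_and] at hz
      rw [hconst z hz.2 hz.1]
      congr 1
      ext g
      rw [mem_Fib]
      simp only [Finset.mem_filter, Finset.mem_univ, true_and]
      constructor
      · rintro ⟨_, h2⟩; exact h2
      · intro h2; exact ⟨by rw [h2]; exact hz.1, h2⟩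
    · intro g hg
      simp only [O, Finset.coe_filter, Finset.mem_univ, true_and, Set.mem_ofPred_eq,
        Finset.coe_erase, Set.mem_sdiff, Set.mem_singleton_iff] at hg ⊢
      exact ⟨by rw [← pow_mul]; exact h.1 g, hg⟩
  have h1 := Finset.card_filter_add_card_filter_not (s := (Finset.univ : Finset P))
    (fun g : P => g ^ 2 = 1)
  rw [Finset.card_univ, ← Nat.card_eq_fintype_card] at h1
  have h2 : (Finset.univ.filter (fun g : P => g ^ 2 = 1)).card = q := hO
  have h3 : (Finset.univ.filter (fun g : P => g ^ 2 ≠ 1)).card =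
    (Finset.univ.filter (fun g : P => ¬ g ^ 2 = 1)).card := rfl
  rw [h2, ← h3, hsum, hOe] at h1
  exact h1.symm

theorem sq_mul_of_mem (h : CenInv P) {k : P} (hk : k ∈ Om h) (x : P) : (x * k) ^ 2 = x ^ 2 := by
  have h1 : k * x = x * k := (h.2 k hk x).symm
  have h2 : k ^ 2 = 1 := hk
  calc (x * k) ^ 2 = x * (k * x) * k := by rw [sq]; group
    _ = x ^ 2 * k ^ 2 := by rw [h1, sq, sq]; group
    _ = x ^ 2 := by rw [h2, mul_one]

theorem dvd_fib [Fintype P] (h : CenInv P) (w : P) : Nat.card (Om h) ∣ (Fib w).card := by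
  have h1 := dvd_sum_of_invariant (Om h) (fun g : P => if g ^ 2 = w then (1 : ℤ) else 0)
    (fun u k hk => by simp only [sq_mul_of_mem h hk])
  have h2 : (∑ g : P, if g ^ 2 = w then (1 : ℤ) else 0) = ((Fib w).card : ℤ) := by
    rw [Fib, Finset.card_filter]
    push_cast
    rfl
  rw [h2] at h1
  exact_mod_cast h1

/-- In order `q ^ 2` squaring is injective modulo the involutions. -/
theorem inj_of_trans [Finite P] (h : CenInv P) (hP : Nat.card P = Nat.card (Om h) ^ 2)
    (ξ : MulAut P) (hξ : Trans ξ) (x y : P) (hxy : x ^ 2 = y ^ 2) : x⁻¹ * y ∈ Om h := by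
  have hfin : Fintype P := Fintype.ofFinite P
  by_cases hx : x ^ 2 = 1
  · exact mul_mem (inv_mem hx) (show y ^ 2 = 1 by rw [← hxy, hx])
  have hx4 : (x ^ 2) ^ 2 = 1 := by rw [← pow_mul]; exact h.1 x
  have h1 := fib_count h ξ hξ hx4 hx
  have hq2 : 2 ≤ Nat.card (Om h) := by
    rw [Nat.succ_le_iff, Finite.one_lt_card_iff_nontrivial]
    exact ⟨⟨x ^ 2, hx4⟩, 1, fun e => hx (congrArg Subtype.val e)⟩
  set q := Nat.card (Om h) with hq
  let O : Finset P := Finset.univ.filter (fun z => z ^ 2 = 1)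
  have hO : O.card = q := by
    rw [hq, Nat.card_eq_fintype_card, Fintype.card_subtype]; rfl
  have hF : (Fib (x ^ 2)).card = q := by
    rw [hP] at h1
    have h2 : (q - 1) * q + q = q ^ 2 := by
      obtain ⟨r, hr⟩ : ∃ r, q = r + 1 := ⟨q - 1, by omega⟩
      rw [hr, Nat.add_sub_cancel]; ring
    have h3 : (q - 1) * (Fib (x ^ 2)).card = (q - 1) * q := by omega
    exact Nat.eq_of_mul_eq_mul_left (by omega) h3
  have himg : O.image (fun k => x * k) = Fib (x ^ 2) := by
    apply Finset.eq_of_subset_of_card_le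
    · intro g hg
      rw [Finset.mem_image] at hg
      obtain ⟨k, hk, rfl⟩ := hg
      simp only [O, Finset.mem_filter, Finset.mem_univ, true_and] at hk
      rw [mem_Fib]
      exact sq_mul_of_mem h hk x
    · rw [Finset.card_image_of_injective _ (mul_right_injective x), hF, hO]
  have hy : y ∈ O.image (fun k => x * k) := by
    rw [himg, mem_Fib]
    exact hxy.symm
  rw [Finset.mem_image] at hy
  obtain ⟨k, hk, hky⟩ := hy
  simp only [O, Finset.mem_filter, Finset.mem_univ, true_and] at hk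
  rw [← hky, inv_mul_cancel_left]
  exact hk

/-- The order of `P` is `q`, `q ^ 2` or `q ^ 3`. -/
theorem card_cases [Finite P] [Nontrivial P] (h : CenInv P) (ξ : MulAut P) (hξ : Trans ξ) :
    Nat.card P = Nat.card (Om h) ∨ Nat.card P = Nat.card (Om h) ^ 2 ∨
      Nat.card P = Nat.card (Om h) ^ 3 := by
  have hfin : Fintype P := Fintype.ofFinite P
  obtain ⟨w, hw, hw1⟩ : ∃ w : P, w ^ 2 = 1 ∧ w ≠ 1 := by
    obtain ⟨x, hx⟩ := exists_ne (1 : P)
    by_cases hx2 : x ^ 2 = 1
    · exact ⟨x, hx2, hx⟩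
    · exact ⟨x ^ 2, by rw [← pow_mul]; exact h.1 x, hx2⟩
  have h1 := fib_count h ξ hξ hw hw1
  obtain ⟨c, hc⟩ := dvd_fib h w
  have h2 := card_le_cube h
  have hp : IsPGroup 2 P := fun g => ⟨2, h.1 g⟩
  have hprime : Fact (Nat.Prime 2) := ⟨Nat.prime_two⟩
  obtain ⟨a, ha⟩ := IsPGroup.iff_card.mp hp
  obtain ⟨k, hk⟩ := IsPGroup.iff_card.mp (hp.to_subgroup (Om h))
  rw [hc, hk, ha] at h1
  rw [hk, ha] at h2
  rw [hk, ha]
  rw [← pow_mul] at h2 ⊢
  rw [← pow_mul]
  have h3 : a ≤ k * 3 := (Nat.pow_le_pow_iff_right (by norm_num)).mp h2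
  have h4 : k ≤ a := by
    have : 2 ^ k ≤ 2 ^ a := by rw [h1]; exact Nat.le_add_right _ _
    exact (Nat.pow_le_pow_iff_right (by norm_num)).mp this
  have h5 : 2 ^ (a - k) = 1 + (2 ^ k - 1) * c := by
    have h6 : 2 ^ k * 2 ^ (a - k) = 2 ^ k * (1 + (2 ^ k - 1) * c) := by
      rw [← pow_add, Nat.add_sub_cancel' h4, h1]; ring
    exact Nat.eq_of_mul_eq_mul_left (by positivity) h6
  have h7 : (2 ^ k - 1) ∣ (2 ^ (a - k) - 1) := ⟨c, by omega⟩
  have h8 : Nat.gcd k (a - k) = k := by
    have h9 := Nat.pow_sub_one_gcd_pow_sub_one 2 k (a - k)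
    rw [Nat.gcd_eq_left h7] at h9
    have h10 : 0 < 2 ^ k := by positivity
    have h11 : 0 < 2 ^ (Nat.gcd k (a - k)) := by positivity
    have h12 : 2 ^ k = 2 ^ (Nat.gcd k (a - k)) := by omega
    exact (Nat.pow_right_injective (le_refl 2) h12).symm
  obtain ⟨j, hj⟩ := Nat.gcd_eq_left_iff_dvd.mp h8
  have hk0 : 0 < k := by
    by_contra hk0
    have hk0' : k = 0 := by omega
    rw [hk0', pow_zero, Subgroup.card_eq_one] at hk
    have : w ∈ Om h := hw
    rw [hk, Subgroup.mem_bot] at this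
    exact hw1 this
  have hj3 : j < 3 := by
    by_contra hcon
    push Not at hcon
    have : k * 3 ≤ k * j := Nat.mul_le_mul_left k hcon
    omega
  interval_cases j
  · left; congr 1; omega
  · right; left; congr 1; omega
  · right; right; congr 1; omega

/-- A power of `ξ` which fixes an involution has exponent at least the number of involutions. -/
theorem fix_le [Finite P] (h : CenInv P) (ξ : MulAut P) (hξ : Trans ξ) {y : P} (hy : y ^ 2 = 1)
    (hy1 : y ≠ 1) {t : ℕ} (ht : 0 < t) (hfix : (ξ ^ t) y = y) : Nat.card (Om h) ≤ t + 1 := by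
  have hmul : ∀ k : ℤ, (ξ ^ ((t : ℤ) * k)) y = y := by
    intro k
    rw [zpow_mul, zpow_natCast]
    have h1 : y ∈ Function.fixedPoints (ξ ^ t) := hfix
    have h2 : (ξ ^ t) ∈ MulAction.stabilizer (MulAut P) y := hfix
    exact Subgroup.zpow_mem _ h2 k
  let f : Option (Fin t) → Om h := fun o => match o with
    | none => 1
    | some k => ⟨(ξ ^ (k : ℕ)) y, by rw [mem_Om, ← map_pow, hy, map_one]⟩
  have hsurj : Function.Surjective f := by
    intro w
    by_cases hw1 : w = 1
    · exact ⟨none, hw1.symm⟩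
    · obtain ⟨k, hk⟩ := hξ y w hy hy1 w.2 (fun e => hw1 (Subtype.ext e))
      have h1 : 0 ≤ k % (t : ℤ) := Int.emod_nonneg _ (by omega)
      have h2 : k % (t : ℤ) < t := Int.emod_lt_of_pos _ (by exact_mod_cast ht)
      refine ⟨some ⟨(k % (t : ℤ)).toNat, by omega⟩, ?_⟩
      apply Subtype.ext
      change (ξ ^ (k % (t : ℤ)).toNat) y = w
      rw [← zpow_natCast, Int.toNat_of_nonneg h1, ← hk]
      conv_rhs => rw [← Int.emod_add_mul_ediv k t, zpow_add, MulAut.mul_apply, hmul]
  have h3 := Nat.card_le_card_of_surjective f hsurj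
  simpa using h3

/-- Lower bound. -/
theorem lower_trans [Finite P] [Nontrivial P] (h : CenInv P) (ξ : MulAut P) (hξ : Trans ξ) :
    Nat.card (Om h) + 1 ≤ T (P × P) := by
  have hpos : 0 < Nat.card (Om h) := Nat.card_pos
  have h1 := card_add_one_le_T (P := P) (ι := Option (Fin (Nat.card (Om h) - 1)))
    (fun o => match o with
      | none => 1
      | some k => (ξ ^ (k : ℕ)).toMonoidHom) ?_
  · rw [Fintype.card_option, Fintype.card_fin] at h1
    omega
  · have key : ∀ i j : ℕ, i < j → j < Nat.card (Om h) - 1 → ∀ x : P, (ξ ^ i) x = (ξ ^ j) x →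
        x = 1 := by
      intro i j hij hj x hx
      by_contra hx1
      obtain ⟨y, hy, hy1, hyx⟩ : ∃ y : P, y ^ 2 = 1 ∧ y ≠ 1 ∧ (ξ ^ i) y = (ξ ^ j) y := by
        by_cases hx2 : x ^ 2 = 1
        · exact ⟨x, hx2, hx1, hx⟩
        · exact ⟨x ^ 2, by rw [← pow_mul]; exact h.1 x, hx2, by rw [map_pow, map_pow, hx]⟩
      have h2 : (ξ ^ (j - i)) y = y := by
        have h3 : ξ ^ j = ξ ^ i * ξ ^ (j - i) := by rw [← pow_add]; congr 1; omega
        rw [h3, MulAut.mul_apply] at hyx
        exact ((ξ ^ i).injective hyx).symm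
      have h4 := fix_le h ξ hξ hy hy1 (t := j - i) (by omega) h2
      omega
    intro a b hab x hx
    match a, b, hab, hx with
    | none, none, hab, _ => exact absurd rfl hab
    | none, some k, _, hx =>
      have h2 : (1 : P) = (ξ ^ (k : ℕ)) x := hx
      exact ((MulEquiv.map_eq_one_iff _).mp h2.symm)
    | some k, none, _, hx =>
      have h2 : (ξ ^ (k : ℕ)) x = 1 := hx
      exact ((MulEquiv.map_eq_one_iff _).mp h2)
    | some k, some l, hab, hx =>
      have h2 : (ξ ^ (k : ℕ)) x = (ξ ^ (l : ℕ)) x := hx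
      have hkl : (k : ℕ) ≠ l := fun e => hab (by rw [Fin.ext e])
      rcases Nat.lt_or_gt_of_ne hkl with h3 | h3
      · exact key k l h3 l.2 x h2
      · exact key l k h3 k.2 x h2.symm

/-- Upper bound when all elements satisfy `x ^ 2 = 1`. -/
theorem upper_one [Finite P] [Nontrivial P] (h : CenInv P) (hP : Nat.card P = Nat.card (Om h)) :
    T (P × P) ≤ Nat.card (Om h) + 1 := by
  apply upper_aux h
  intro U hU
  have h1 : Om h = ⊤ := Subgroup.eq_top_of_card_eq _ hP.symm
  have h2 : Om (cenInv_prod h) = ⊤ := by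
    rw [eq_top_iff]
    intro x _
    have h3 : x.1 ∈ Om h := by rw [h1]; exact Subgroup.mem_top _
    have h4 : x.2 ∈ Om h := by rw [h1]; exact Subgroup.mem_top _
    exact Prod.ext h3 h4
  rw [h2, inf_top_eq, hU, hP]

/-- If a cyclic group of automorphisms permutes the involutions of the 2-group `P` transitively
then all involutions are central. -/
theorem central_of_trans [Finite P] [Nontrivial P] (h4 : ∀ x : P, x ^ 4 = 1) (ξ : MulAut P)
    (hξ : Trans ξ) : CenInv P := by
  refine ⟨h4, fun x hx y => ?_⟩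
  by_cases hx1 : x = 1
  · rw [hx1, mul_one, one_mul]
  have hprime : Fact (Nat.Prime 2) := ⟨Nat.prime_two⟩
  have hp : IsPGroup 2 P := fun g => ⟨2, h4 g⟩
  have hnt := hp.center_nontrivial
  obtain ⟨⟨z, hz⟩, hz1⟩ := exists_ne (1 : Subgroup.center P)
  have hz1' : z ≠ 1 := fun e => hz1 (Subtype.ext e)
  obtain ⟨w, hwc, hw, hw1⟩ : ∃ w ∈ Subgroup.center P, w ^ 2 = 1 ∧ w ≠ 1 := by
    by_cases hz2 : z ^ 2 = 1
    · exact ⟨z, hz, hz2, hz1'⟩
    · exact ⟨z ^ 2, pow_mem hz 2, by rw [← pow_mul]; exact h4 z, hz2⟩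
  obtain ⟨k, hk⟩ := hξ w x hw hw1 hx hx1
  have h1 := Subgroup.mem_center_iff.mp hwc ((ξ ^ k).symm y)
  have h2 := congrArg (ξ ^ k) h1
  rw [map_mul, map_mul, MulEquiv.apply_symm_apply, hk] at h2
  exact h2

/-- The exact value for Suzuki 2-groups. -/
theorem suzuki [Finite P] [Nontrivial P] (h4 : ∀ x : P, x ^ 4 = 1) (ξ : MulAut P)
    (hξ : ∀ x y : P, x ^ 2 = 1 → x ≠ 1 → y ^ 2 = 1 → y ≠ 1 → ∃ k : ℤ, (ξ ^ k) x = y) :
    T (P × P) = Nat.card {x : P // x ^ 2 = 1} + 1 := by
  have h : CenInv P := central_of_trans h4 ξ hξ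
  change T (P × P) = Nat.card (Om h) + 1
  apply le_antisymm
  · rcases card_cases h ξ hξ with hP | hP | hP
    · exact upper_one h hP
    · exact upper_sq h hP (inj_of_trans h hP ξ hξ)
    · exact upper_cube h hP
  · exact lower_trans h ξ hξ

end Pool.Agent.Helper60.PCP
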