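import Pool.Agent.Helper60.PCP.Sides

/-!
The bound by `P / Z_m(P)`. (Problem MP_47f3f4_co.)
-/

namespace Pool.Agent.Helper60.PCP

open Pool.Agent.Helper19.PCP
open scoped commutatorElement Classical

/-- In a finite abelian `p`-group `L`, a family of proper subgroups any two of which generate `L`
has at most `(|L| - 1) / (p - 1)` members. -/
theorem count_proper {L ι : Type*} [CommGroup L] [Finite L] {p : ℕ} [Fact p.Prime]
    (hL : IsPGroup p L) (I : Finset ι) (B : ι → Subgroup L) (hB : ∀ i ∈ I, B i ≠ ⊤)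
    (hgen : ∀ i ∈ I, ∀ j ∈ I, i ≠ j → ∀ x, ∃ b ∈ B i, ∃ c ∈ B j, b * c = x) :
    I.card * (p - 1) ≤ Nat.card L - 1 := by
  have : Finite (L →* ℂˣ) :=
    Finite.of_equiv L (CommGroup.monoidHom_mulEquiv_of_hasEnoughRootsOfUnity L ℂ).some.symm.toEquiv
  rw [← CommGroup.card_monoidHom_of_hasEnoughRootsOfUnity L ℂ]
  apply count_subgroups' I (fun i => (MonoidHom.domRestrictHom (B i) ℂˣ).ker)
  · intro i hi j hj hij
    rw [eq_bot_iff]
    rintro φ ⟨h1, h2⟩
    rw [Subgroup.mem_bot]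
    ext x
    obtain ⟨b, hb, c, hc, rfl⟩ := hgen i hi j hj hij x
    have e1 : φ b = 1 := DFunLike.congr_fun (show MonoidHom.domRestrictHom (B i) ℂˣ φ = 1 from h1)
      (⟨b, hb⟩ : B i)
    have e2 : φ c = 1 := DFunLike.congr_fun (show MonoidHom.domRestrictHom (B j) ℂˣ φ = 1 from h2)
      (⟨c, hc⟩ : B j)
    rw [map_mul, e1, e2, mul_one]
    rfl
  · intro i hi
    show p ≤ Nat.card (MonoidHom.domRestrictHom (B i) ℂˣ).ker
    rw [CommGroup.card_domRestrictHom_ker]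
    obtain ⟨a, ha⟩ := hL.index (B i)
    have ha0 : a ≠ 0 := by
      rintro rfl
      rw [pow_zero] at ha
      exact hB i hi (Subgroup.index_eq_one.mp ha)
    have : Nat.card (L ⧸ B i) = p ^ a := ha
    rw [this]
    calc p = p ^ 1 := (pow_one p).symm
      _ ≤ p ^ a := Nat.pow_le_pow_right (Fact.out : p.Prime).pos (by omega)

variable {P : Type*} [Group P]

theorem comm_mul_right_eq {G : Type*} [Group G] {y a k : G} (h : y * k = k * y) :
    ⁅y, a * k⁆ = ⁅y, a⁆ := by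
  rw [commutatorElement_def, commutatorElement_def, mul_inv_rev]
  have h2 : k * y⁻¹ = y⁻¹ * k := by
    rw [eq_inv_mul_iff_mul_eq, ← mul_assoc, h, mul_assoc, mul_inv_cancel, mul_one]
  calc y * (a * k) * y⁻¹ * (k⁻¹ * a⁻¹) = y * a * (k * y⁻¹) * k⁻¹ * a⁻¹ := by group
    _ = y * a * (y⁻¹ * k) * k⁻¹ * a⁻¹ := by rw [h2]
    _ = _ := by group

theorem comm_mul_left_eq {G : Type*} [Group G] {y z g : G} (h : z * g = g * z) :
    ⁅y * z, g⁆ = ⁅y, g⁆ := by
  rw [commutatorElement_def, commutatorElement_def, mul_inv_rev]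
  calc y * z * g * (z⁻¹ * y⁻¹) * g⁻¹ = y * (z * g) * z⁻¹ * y⁻¹ * g⁻¹ := by group
    _ = y * (g * z) * z⁻¹ * y⁻¹ * g⁻¹ := by rw [h]
    _ = _ := by group

theorem mk_comm (N : Subgroup P) [N.Normal] (x y : P) :
    ((⁅x, y⁆ : P) : P ⧸ N) = ⁅(x : P ⧸ N), (y : P ⧸ N)⁆ :=
  map_commutatorElement (QuotientGroup.mk' N) x y

/-- The chain argument with iterated commutators. -/
theorem chain {m : ℕ} {U V : Subgroup (P × P)} (hU : ∀ g : P, ∃ a ∈ pr U, a⁻¹ * g ∈ Zc P m)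
    (hV : ∀ g : P, ∃ a ∈ pr V, a⁻¹ * g ∈ Zc P m) (hUV : U ⊓ V = ⊥) :
    ∀ j ≤ m, ∀ y ∈ tr U (Zc P j), ∀ y' ∈ tr V (Zc P j), y ∈ Lc P (m - j) → y' ∈ Lc P (m - j) →
      y⁻¹ * y' ∈ Zc P j → y ∈ Zc P j := by
  intro j
  induction j with
  | zero =>
    intro _ y hy y' hy' _ _ hyy
    rw [show Zc P 0 = ⊥ from rfl, Subgroup.mem_bot] at hyy
    have he : y' = y := by
      rw [inv_mul_eq_one] at hyy
      exact hyy.symm
    rw [he] at hy'
    obtain ⟨ζ, hζ, h1⟩ := mem_tr.mp hy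
    obtain ⟨ξ, hξ, h3⟩ := mem_tr.mp hy'
    rw [show Zc P 0 = ⊥ from rfl, Subgroup.mem_bot] at hζ hξ
    subst hζ hξ
    have : ((y, 1) : P × P) ∈ U ⊓ V := ⟨h1, h3⟩
    rw [hUV, Subgroup.mem_bot] at this
    have hx1 : y = 1 := congrArg Prod.fst this
    rw [hx1]
    exact one_mem _
  | succ j ih =>
    intro hj y hy y' hy' hyL hyL' hyy
    rw [show y ∈ Zc P (j + 1) ↔ _ from Subgroup.mem_upperCentralSeries_succ_iff]
    intro g
    obtain ⟨a, ha, hag⟩ := hU g
    obtain ⟨a', ha', hag'⟩ := hV g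
    have hLm : Lc P (m - j) = ⁅Lc P (m - (j + 1)), ⊤⁆ := by
      have : m - j = (m - (j + 1)) + 1 := by omega
      rw [this]
      exact Subgroup.lowerCentralSeries_succ _ _
    -- congruences modulo `Z_j`
    have c1 : ((⁅y, g⁆ : P) : P ⧸ Zc P j) = ((⁅y, a⁆ : P) : P ⧸ Zc P j) := by
      have e : g = a * (a⁻¹ * g) := by group
      rw [mk_comm, mk_comm]
      conv_lhs => rw [e, QuotientGroup.mk_mul]
      apply comm_mul_right_eq
      rw [← comm_mem_iff]
      exact comm_lcs_ucs (by omega) hyL hag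
    have c2 : ((⁅y', g⁆ : P) : P ⧸ Zc P j) = ((⁅y', a'⁆ : P) : P ⧸ Zc P j) := by
      have e : g = a' * (a'⁻¹ * g) := by group
      rw [mk_comm, mk_comm]
      conv_lhs => rw [e, QuotientGroup.mk_mul]
      apply comm_mul_right_eq
      rw [← comm_mem_iff]
      exact comm_lcs_ucs (by omega) hyL' hag'
    have c3 : ((⁅y', g⁆ : P) : P ⧸ Zc P j) = ((⁅y, g⁆ : P) : P ⧸ Zc P j) := by
      have e : y' = y * (y⁻¹ * y') := by group
      rw [mk_comm, mk_comm]
      conv_lhs => rw [e, QuotientGroup.mk_mul]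
      apply comm_mul_left_eq
      rw [← comm_mem_iff]
      exact Subgroup.mem_upperCentralSeries_succ_iff.mp hyy g
    have t1 : ⁅y, a⁆ ∈ tr U (Zc P j) := by
      have := comm_tr hy ha
      rwa [Nat.add_sub_cancel] at this
    have t2 : ⁅y', a'⁆ ∈ tr V (Zc P j) := by
      have := comm_tr hy' ha'
      rwa [Nat.add_sub_cancel] at this
    have l1 : ⁅y, a⁆ ∈ Lc P (m - j) := by
      rw [hLm]; exact Subgroup.commutator_mem_commutator hyL (Subgroup.mem_top _)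
    have l2 : ⁅y', a'⁆ ∈ Lc P (m - j) := by
      rw [hLm]; exact Subgroup.commutator_mem_commutator hyL' (Subgroup.mem_top _)
    have c4 : (⁅y, a⁆)⁻¹ * ⁅y', a'⁆ ∈ Zc P j := by
      rw [← QuotientGroup.eq, ← c1, ← c2, c3]
    have h1 : ⁅y, a⁆ ∈ Zc P j := ih (by omega) _ t1 _ t2 l1 l2 c4
    rw [← QuotientGroup.eq_one_iff] at h1 ⊢
    rw [c1, h1]

theorem bar_disj {m : ℕ} {U V : Subgroup (P × P)} (hU : ∀ g : P, ∃ a ∈ pr U, a⁻¹ * g ∈ Zc P m)
    (hV : ∀ g : P, ∃ a ∈ pr V, a⁻¹ * g ∈ Zc P m) (hUV : U ⊓ V = ⊥) :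
    bar (Zc P m) U ⊓ bar (Zc P m) V = ⊥ := by
  rw [eq_bot_iff]
  intro q hq
  obtain ⟨z, rfl⟩ := QuotientGroup.mk_surjective q
  obtain ⟨hq1, hq2⟩ := hq
  obtain ⟨x, hx, hxz⟩ := mem_bar.mp hq1
  obtain ⟨y, hy, hyz⟩ := mem_bar.mp hq2
  have hxy : x⁻¹ * y ∈ Zc P m := by
    have : x⁻¹ * y = (x⁻¹ * z) * (y⁻¹ * z)⁻¹ := by group
    rw [this]
    exact mul_mem hxz (inv_mem hyz)
  have hL : Lc P (m - m) = ⊤ := by rw [Nat.sub_self]; exact Subgroup.lowerCentralSeries_zero _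
  have hxm : x ∈ Zc P m := chain hU hV hUV m le_rfl x hx y hy (by rw [hL]; exact Subgroup.mem_top _)
    (by rw [hL]; exact Subgroup.mem_top _) hxy
  rw [Subgroup.mem_bot, QuotientGroup.eq_one_iff]
  have : z = x * (x⁻¹ * z) := by group
  rw [this]
  exact mul_mem hxm hxz

theorem pr_of_top {K : Subgroup P} [K.Normal] {U : Subgroup (P × P)} (h : U.map (f1 K) = ⊤)
    (g : P) : ∃ a ∈ pr U, a⁻¹ * g ∈ K := by
  have hg : (QuotientGroup.mk g : P ⧸ K) ∈ U.map (f1 K) := by rw [h]; exact Subgroup.mem_top _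
  obtain ⟨u, hu, hug⟩ := hg
  exact ⟨u.1, mem_pr.mpr ⟨u.2, hu⟩, QuotientGroup.eq.mp hug⟩

/-- The components of graph type. -/
theorem graph_count [Finite P] (K : Subgroup P) [K.Normal] (hK : K ≠ ⊤)
    {𝒰 : Finset (Subgroup (P × P))} (h : IsPCP (Nat.card P) 𝒰) :
    (𝒰.filter fun U => U.map (f1 K) = ⊤ ∧ bar K U = ⊥).card ≤ Nat.card (P ⧸ K) - 1 := by
  obtain ⟨x0, hx0⟩ : ∃ x0 : P, x0 ∉ K := by
    by_contra hcon
    push Not at hcon
    exact hK (eq_top_iff.mpr fun x _ => hcon x)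
  set I := 𝒰.filter fun U => U.map (f1 K) = ⊤ ∧ bar K U = ⊥ with hI
  have hu : ∀ U : Subgroup (P × P), ∃ u : P × P, U ∈ I → u ∈ U ∧ f1 K u = (x0 : P ⧸ K) := by
    intro U
    by_cases hU : U ∈ I
    · have h1 : (x0 : P ⧸ K) ∈ U.map (f1 K) := by
        rw [(Finset.mem_filter.mp hU).2.1]; exact Subgroup.mem_top _
      obtain ⟨u, hu, hux⟩ := h1
      exact ⟨u, fun _ => ⟨hu, hux⟩⟩
    · exact ⟨1, fun h => absurd h hU⟩
  choose u hu using hu
  have hne1 : ∀ U ∈ I, f2 K (u U) ≠ 1 := by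
    intro U hU h1
    have h2 : (u U).2 ∈ K := mem_ker_f2.mp h1
    have h3 : (x0 : P ⧸ K) ∈ bar K U := by
      rw [← (hu U hU).2]
      exact mem_bar.mpr ⟨(u U).1, mem_tr.mpr ⟨(u U).2, h2, (hu U hU).1⟩, by
        show (u U).1⁻¹ * (u U).1 ∈ K
        rw [inv_mul_cancel]; exact one_mem _⟩
    rw [(Finset.mem_filter.mp hU).2.2, Subgroup.mem_bot, QuotientGroup.eq_one_iff] at h3
    exact hx0 h3
  have hlarge : ∀ U ∈ I, Nat.card K ≤ Nat.card (U ⊓ K.prod K : Subgroup (P × P)) := by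
    intro U hU
    have h1 := card_K_le K (h.1 U (Finset.mem_filter.mp hU).1)
    rwa [(Finset.mem_filter.mp hU).2.2, Subgroup.card_bot, mul_one] at h1
  have hinj : ∀ U ∈ I, ∀ V ∈ I, f2 K (u U) = f2 K (u V) → U = V := by
    intro U hU V hV heq
    by_contra hne
    have hUV := h.2 U (Finset.mem_filter.mp hU).1 V (Finset.mem_filter.mp hV).1 hne
    have hν : (u U)⁻¹ * u V ∈ K.prod K := by
      rw [Subgroup.mem_prod]
      refine ⟨?_, ?_⟩
      · have := (hu U hU).2.trans (hu V hV).2.symm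
        exact QuotientGroup.eq.mp this
      · exact QuotientGroup.eq.mp heq
    -- `(U ∩ N) (V ∩ N) = N`
    let A := U ⊓ K.prod K
    let B := V ⊓ K.prod K
    let f : A × B → K.prod K := fun x => ⟨x.1.1 * x.2.1, mul_mem x.1.2.2 x.2.2.2⟩
    have hf : Function.Injective f := by
      rintro ⟨a, b⟩ ⟨a', b'⟩ hab
      have h1 : a.1 * b.1 = a'.1 * b'.1 := congrArg Subtype.val hab
      have h2 : a'.1⁻¹ * a.1 = b'.1 * b.1⁻¹ := by
        rw [inv_mul_eq_iff_eq_mul, ← mul_assoc, eq_mul_inv_iff_mul_eq, h1]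
      have h3 : a'.1⁻¹ * a.1 ∈ U ⊓ V := by
        refine ⟨U.mul_mem (U.inv_mem a'.2.1) a.2.1, ?_⟩
        rw [h2]
        exact V.mul_mem b'.2.1 (V.inv_mem b.2.1)
      rw [hUV, Subgroup.mem_bot] at h3
      rw [h3] at h2
      have h4 : a = a' := Subtype.ext (by rw [inv_mul_eq_one] at h3; exact h3.symm)
      have h5 : b = b' := Subtype.ext (by
        have := h2.symm
        rw [mul_inv_eq_one] at this; exact this.symm)
      rw [h4, h5]
    have hbij : Function.Bijective f := by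
      apply hf.bijective_of_nat_card_le
      rw [card_prod_self, Nat.card_prod]
      exact Nat.mul_le_mul (hlarge U hU) (hlarge V hV)
    obtain ⟨⟨a, b⟩, hab⟩ := hbij.2 ⟨_, hν⟩
    have h1 : a.1 * b.1 = (u U)⁻¹ * u V := congrArg Subtype.val hab
    have h2 : u U * a.1 = u V * b.1⁻¹ := by
      rw [eq_mul_inv_iff_mul_eq, mul_assoc, h1]; group
    have h3 : u U * a.1 ∈ U ⊓ V := by
      refine ⟨U.mul_mem (hu U hU).1 a.2.1, ?_⟩
      rw [h2]
      exact V.mul_mem (hu V hV).1 (V.inv_mem b.2.1)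
    rw [hUV, Subgroup.mem_bot] at h3
    have h4 : u U = a.1⁻¹ := eq_inv_of_mul_eq_one_left h3
    have h5 : (u U).1 ∈ K := by
      rw [h4]
      exact inv_mem (Subgroup.mem_prod.mp a.2.2).1
    have h6 : (x0 : P ⧸ K) = 1 := by
      rw [← (hu U hU).2]
      exact (QuotientGroup.eq_one_iff _).mpr h5
    exact hx0 ((QuotientGroup.eq_one_iff _).mp h6)
  have hfin : Fintype (P ⧸ K) := Fintype.ofFinite _
  calc I.card = (I.image fun U => f2 K (u U)).card := by
        rw [Finset.card_image_of_injOn]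
        intro U hU V hV heq
        exact hinj U hU V hV heq
    _ ≤ ((Finset.univ : Finset (P ⧸ K)).erase 1).card := by
        apply Finset.card_le_card
        intro q hq
        obtain ⟨U, hU, rfl⟩ := Finset.mem_image.mp hq
        exact Finset.mem_erase.mpr ⟨hne1 U hU, Finset.mem_univ _⟩
    _ = Nat.card (P ⧸ K) - 1 := by
        rw [Finset.card_erase_of_mem (Finset.mem_univ _), Finset.card_univ,
          Nat.card_eq_fintype_card]

/-- The bound by `P / Z_m(P)`. -/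
theorem bound_top [Finite P] {p : ℕ} [Fact p.Prime] (hP : IsPGroup p P)
    {m : ℕ} (hm : ∀ x y : P, ⁅x, y⁆ ∈ Zc P m) (hK : Zc P m ≠ ⊤)
    {𝒰 : Finset (Subgroup (P × P))} (h : IsPCP (Nat.card P) 𝒰) :
    𝒰.card * (p - 1) ≤ (p + 1) * (Nat.card (P ⧸ Zc P m) - 1) := by
  set K := Zc P m with hKdef
  -- the three kinds
  have hA : (𝒰.filter fun U => ¬ U.map (f1 K) = ⊤).card * (p - 1) ≤ Nat.card (P ⧸ K) - 1 := by
    let _ : CommGroup (P ⧸ K) :=
      { (inferInstance : Group (P ⧸ K)) with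
        mul_comm := by
          intro a b
          obtain ⟨x, rfl⟩ := QuotientGroup.mk_surjective a
          obtain ⟨y, rfl⟩ := QuotientGroup.mk_surjective b
          exact (comm_mem_iff K x y).mp (hm x y) }
    apply count_proper (hP.to_quotient K) _ (fun U => U.map (f1 K))
    · intro U hU
      exact (Finset.mem_filter.mp hU).2
    · intro U hU V hV hne x
      obtain ⟨g, rfl⟩ := QuotientGroup.mk_surjective x
      obtain ⟨u, hu, v, hv, huv⟩ := exists_mul (compl_of_mem h (Finset.mem_filter.mp hU).1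
        (Finset.mem_filter.mp hV).1 hne) (g, 1)
      refine ⟨f1 K u, ⟨u, hu, rfl⟩, f1 K v, ⟨v, hv, rfl⟩, ?_⟩
      rw [← map_mul, huv]
      rfl
  have hB := graph_count K hK h
  have hC : (𝒰.filter fun U => U.map (f1 K) = ⊤ ∧ ¬ bar K U = ⊥).card * (p - 1) ≤
      Nat.card (P ⧸ K) - 1 := by
    apply count_subgroups' _ (bar K)
    · intro U hU V hV hne
      rw [Finset.mem_filter] at hU hV
      exact bar_disj (pr_of_top hU.2.1) (pr_of_top hV.2.1) (h.2 U hU.1 V hV.1 hne)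
    · intro U hU
      exact le_card_of_ne_bot (hP.to_quotient K) (Finset.mem_filter.mp hU).2.2
  have h1 := Finset.card_filter_add_card_filter_not (s := 𝒰) (fun U => U.map (f1 K) = ⊤)
  have h2 := Finset.card_filter_add_card_filter_not (s := 𝒰.filter fun U => U.map (f1 K) = ⊤)
    (fun U => bar K U = ⊥)
  rw [Finset.filter_filter, Finset.filter_filter] at h2
  rw [← h1, ← h2]
  have h3 : p + 1 = 1 + (p - 1) + 1 := by
    have := (Fact.out : p.Prime).one_lt
    omega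
  rw [h3]
  set x := Nat.card (P ⧸ K) - 1
  calc _ = (𝒰.filter fun U => U.map (f1 K) = ⊤ ∧ bar K U = ⊥).card * (p - 1) +
        (𝒰.filter fun U => U.map (f1 K) = ⊤ ∧ ¬ bar K U = ⊥).card * (p - 1) +
        (𝒰.filter fun U => ¬ U.map (f1 K) = ⊤).card * (p - 1) := by ring
    _ ≤ x * (p - 1) + x + x := by
        refine Nat.add_le_add (Nat.add_le_add (Nat.mul_le_mul_right _ hB) hC) hA
    _ = _ := by ring

end Pool.Agent.Helper60.PCP
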