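import Pool.Agent.Helper60.PCP.Gen

/-!
`T(P × P) ≤ 2 p + 1` for non-abelian two-generator `p`-groups. (Problem MP_47f3f4_co.)
-/

namespace Pool.Agent.Helper60.PCP

open Pool.Agent.Helper19.PCP
open scoped commutatorElement Classical

variable {P : Type*} [Group P]

/-- the subgroup `[P', P] (P') ^ p` -/
def M2 (P : Type*) [Group P] (p : ℕ) : Subgroup P :=
  ⁅commutator P, (⊤ : Subgroup P)⁆ ⊔ Subgroup.closure {x | ∃ y ∈ commutator P, y ^ p = x}

theorem commutator_inv (f : P →* P) : (commutator P).map f ≤ commutator P := by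
  rw [commutator_def, Subgroup.map_commutator]
  exact Subgroup.commutator_mono le_top le_top

theorem M2_inv (p : ℕ) (f : P →* P) : (M2 P p).map f ≤ M2 P p := by
  unfold M2
  rw [Subgroup.map_sup, Subgroup.map_commutator, MonoidHom.map_closure]
  apply sup_le_sup
  · exact Subgroup.commutator_mono (commutator_inv f) le_top
  · apply Subgroup.closure_mono
    rintro _ ⟨x, ⟨y, hy, rfl⟩, rfl⟩
    exact ⟨f y, commutator_inv f (Subgroup.mem_map_of_mem f hy), (map_pow f y p).symm⟩

theorem M2_normal (p : ℕ) : (M2 P p).Normal where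
  conj_mem m hm g := M2_inv p (MulAut.conj g).toMonoidHom
    (Subgroup.mem_map_of_mem (MulAut.conj g).toMonoidHom hm)

theorem relIndex_le_of_pow [Finite P] {p : ℕ} (hp : 0 < p) (M N : Subgroup P) [M.Normal] (k : P)
    (hk : k ^ p ∈ M) (hN : N ≤ Subgroup.zpowers k ⊔ M) : M.relIndex N ≤ p := by
  have h1 : M.relIndex N ≤ M.relIndex (Subgroup.zpowers k ⊔ M) :=
    Subgroup.relIndex_le_of_le_right hN (Subgroup.index_ne_zero_of_finite)
  refine h1.trans ?_
  rw [Subgroup.relIndex_sup_right]
  let f : Fin p → (Subgroup.zpowers k) ⧸ M.subgroupOf (Subgroup.zpowers k) := fun i =>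
    QuotientGroup.mk (⟨k ^ (i : ℕ), Subgroup.npow_mem_zpowers k i⟩ : Subgroup.zpowers k)
  have hf : Function.Surjective f := by
    intro q
    obtain ⟨⟨x, hx⟩, rfl⟩ := QuotientGroup.mk_surjective q
    obtain ⟨j, rfl⟩ := Subgroup.mem_zpowers_iff.mp hx
    have hpos : (0 : ℤ) < p := by exact_mod_cast hp
    have h2 : 0 ≤ j % (p : ℤ) := Int.emod_nonneg _ (by omega)
    have h3 : j % (p : ℤ) < p := Int.emod_lt_of_pos _ hpos
    refine ⟨⟨(j % (p : ℤ)).toNat, by omega⟩, ?_⟩
    apply QuotientGroup.eq.mpr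
    rw [Subgroup.mem_subgroupOf]
    change (k ^ (j % (p : ℤ)).toNat)⁻¹ * k ^ j ∈ M
    have h4 : (k ^ (j % (p : ℤ)).toNat)⁻¹ * k ^ j = (k ^ p) ^ (j / (p : ℤ)) := by
      rw [← zpow_natCast, Int.toNat_of_nonneg h2, ← zpow_neg, ← zpow_add, ← zpow_natCast,
        ← zpow_mul]
      congr 1
      have := Int.emod_add_mul_ediv j p
      omega
    rw [h4]
    exact zpow_mem hk _
  have h5 := Nat.card_le_card_of_surjective f hf
  rw [Nat.card_eq_fintype_card (α := Fin p), Fintype.card_fin] at h5
  exact h5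

/-- A group whose Frattini quotient has order `p ^ 2` is generated by two elements. -/
theorem exists_two_gen [Finite P] {p : ℕ} [Fact p.Prime] (hidx : (frattini P).index = p ^ 2) :
    ∃ a b : P, Subgroup.closure {a, b} = ⊤ := by
  have hp := (Fact.out : p.Prime)
  have hL : Nat.card (P ⧸ frattini P) = p ^ 2 := hidx
  have hfinL : Finite (P ⧸ frattini P) := inferInstance
  obtain ⟨x, y, hxy⟩ : ∃ x y : P ⧸ frattini P, Subgroup.closure {x, y} = ⊤ := by
    have hnt : Nontrivial (P ⧸ frattini P) := by
      rw [← Finite.one_lt_card_iff_nontrivial, hL]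
      exact Nat.one_lt_pow (by norm_num) hp.one_lt
    obtain ⟨x, hx⟩ := exists_ne (1 : P ⧸ frattini P)
    by_cases htop : Subgroup.zpowers x = ⊤
    · refine ⟨x, 1, ?_⟩
      rw [eq_top_iff, ← htop, Subgroup.zpowers_le]
      exact Subgroup.subset_closure (by simp)
    · obtain ⟨y, hy⟩ : ∃ y, y ∉ Subgroup.zpowers x := by
        by_contra hcon
        push Not at hcon
        exact htop (eq_top_iff.mpr fun z _ => hcon z)
      refine ⟨x, y, ?_⟩
      have hle : Subgroup.zpowers x ≤ Subgroup.closure {x, y} := by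
        rw [Subgroup.zpowers_le]
        exact Subgroup.subset_closure (by simp)
      have hlt : Nat.card (Subgroup.zpowers x) < Nat.card (Subgroup.closure {x, y}) := by
        apply lt_of_le_of_ne (Subgroup.card_le_of_le hle)
        intro he
        have := Subgroup.eq_of_le_of_card_ge hle he.ge
        apply hy
        rw [this]
        exact Subgroup.subset_closure (by simp)
      have h1 : Nat.card (Subgroup.zpowers x) ∣ p ^ 2 := hL ▸ Subgroup.card_subgroup_dvd_card _
      have h2 : Nat.card (Subgroup.closure {x, y}) ∣ p ^ 2 :=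
        hL ▸ Subgroup.card_subgroup_dvd_card _
      obtain ⟨i, hi, hi'⟩ := (Nat.dvd_prime_pow hp).mp h1
      obtain ⟨j, hj, hj'⟩ := (Nat.dvd_prime_pow hp).mp h2
      rw [hi', hj'] at hlt
      have hij := (Nat.pow_lt_pow_iff_right hp.one_lt).mp hlt
      have hi0 : i ≠ 0 := by
        rintro rfl
        rw [pow_zero, Subgroup.card_eq_one, Subgroup.zpowers_eq_bot] at hi'
        exact hx hi'
      have hj2 : j = 2 := by omega
      rw [hj2] at hj'
      exact Subgroup.eq_top_of_card_eq _ (by rw [hj', hL])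
  obtain ⟨a, rfl⟩ := QuotientGroup.mk_surjective x
  obtain ⟨b, rfl⟩ := QuotientGroup.mk_surjective y
  refine ⟨a, b, ?_⟩
  apply frattini_nongenerating
  have h1 : (Subgroup.closure {a, b}).map (QuotientGroup.mk' (frattini P)) = ⊤ := by
    rw [MonoidHom.map_closure, ← hxy]
    congr 1
    rw [Set.image_pair]
    rfl
  have h2 := congrArg (Subgroup.comap (QuotientGroup.mk' (frattini P))) h1
  rw [Subgroup.comap_map_eq, QuotientGroup.ker_mk', Subgroup.comap_top] at h2
  exact h2

/-- All commutators of a two-generator group are powers of one commutator modulo `[P', P]`. -/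
theorem commutator_le_sup {p : ℕ} {a b : P} (hab : Subgroup.closure {a, b} = ⊤) :
    commutator P ≤ Subgroup.zpowers ⁅a, b⁆ ⊔ M2 P p := by
  have hMn : (M2 P p).Normal := M2_normal p
  set K := Subgroup.zpowers ⁅a, b⁆ ⊔ M2 P p with hK
  have hk : ⁅a, b⁆ ∈ commutator P := by
    rw [commutator_def]
    exact Subgroup.commutator_mem_commutator (Subgroup.mem_top _) (Subgroup.mem_top _)
  have hkK : ⁅a, b⁆ ∈ K := Subgroup.mem_sup_left (Subgroup.mem_zpowers _)
  have hMK : M2 P p ≤ K := le_sup_right
  have hKn : K.Normal := by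
    constructor
    intro x hx g
    obtain ⟨z, hz, m, hm, rfl⟩ := Subgroup.mem_sup_of_normal_right.mp hx
    obtain ⟨j, rfl⟩ := Subgroup.mem_zpowers_iff.mp hz
    have h1 : g * (⁅a, b⁆ ^ j * m) * g⁻¹ = (g * ⁅a, b⁆ * g⁻¹) ^ j * (g * m * g⁻¹) := by
      rw [conj_zpow]; group
    rw [h1]
    refine mul_mem (zpow_mem ?_ j) (hMK (hMn.conj_mem m hm g))
    have h2 : g * ⁅a, b⁆ * g⁻¹ = ⁅⁅a, b⁆, g⁆⁻¹ * ⁅a, b⁆ := by
      rw [commutatorElement_def ⁅a, b⁆ g]; group
    rw [h2]
    refine mul_mem (inv_mem (hMK ?_)) hkK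
    exact Subgroup.mem_sup_left (Subgroup.commutator_mem_commutator hk (Subgroup.mem_top _))
  have htop : ∀ x : P, x ∈ Subgroup.closure {a, b} := fun x => by
    rw [hab]; exact Subgroup.mem_top _
  have inv_sym : ∀ x y : P, ⁅x, y⁆ ∈ K → ⁅y, x⁆ ∈ K := by
    intro x y h
    rw [← commutatorElement_inv]; exact inv_mem h
  have h1 : ∀ x : P, ⁅x, a⁆ ∈ K := by
    intro x
    refine Subgroup.closure_induction (p := fun x _ => ⁅x, a⁆ ∈ K) ?_ ?_ ?_ ?_ (htop x)
    · intro y hy
      rcases hy with rfl | hy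
      · rw [commutatorElement_self]; exact one_mem _
      · rw [Set.mem_singleton_iff] at hy
        rw [hy]
        exact inv_sym _ _ hkK
    · rw [commutatorElement_one_left]; exact one_mem _
    · intro y z _ _ hy hz
      exact comm_mul_left K hy hz
    · intro y _ hy
      exact comm_inv_left K hy
  have h2 : ∀ x : P, ⁅x, b⁆ ∈ K := by
    intro x
    refine Subgroup.closure_induction (p := fun x _ => ⁅x, b⁆ ∈ K) ?_ ?_ ?_ ?_ (htop x)
    · intro y hy
      rcases hy with rfl | hy
      · exact hkK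
      · rw [Set.mem_singleton_iff] at hy
        rw [hy, commutatorElement_self]
        exact one_mem _
    · rw [commutatorElement_one_left]; exact one_mem _
    · intro y z _ _ hy hz
      exact comm_mul_left K hy hz
    · intro y _ hy
      exact comm_inv_left K hy
  have h3 : ∀ x y : P, ⁅y, x⁆ ∈ K := by
    intro x y
    refine Subgroup.closure_induction (p := fun y _ => ⁅y, x⁆ ∈ K) ?_ ?_ ?_ ?_ (htop y)
    · intro z hz
      rcases hz with rfl | hz
      · exact inv_sym _ _ (h1 x)
      · rw [Set.mem_singleton_iff] at hz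
        rw [hz]
        exact inv_sym _ _ (h2 x)
    · rw [commutatorElement_one_left]; exact one_mem _
    · intro y z _ _ hy hz
      exact comm_mul_left K hy hz
    · intro y _ hy
      exact comm_inv_left K hy
  rw [commutator_def, Subgroup.commutator_le]
  intro x _ y _
  exact h3 y x

/-- `P'` is not contained in `[P', P] (P') ^ p`. -/
theorem not_le_M2 [Finite P] {p : ℕ} [Fact p.Prime] (hP : IsPGroup p P)
    (hna : ∃ a b : P, a * b ≠ b * a) : ¬ commutator P ≤ M2 P p := by
  intro hle
  have hnil : Group.IsNilpotent P := hP.isNilpotent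
  set G3 : Subgroup P := ⁅commutator P, (⊤ : Subgroup P)⁆ with hG3
  -- `P'` is not contained in `[P', P]`
  have hnot : ¬ commutator P ≤ G3 := by
    intro h
    have h1 : ∀ j, commutator P ≤ (⊤ : Subgroup P).lowerCentralSeries j := by
      intro j
      induction j with
      | zero => rw [Subgroup.lowerCentralSeries_zero]; exact le_top
      | succ j ih =>
        rw [Subgroup.lowerCentralSeries_succ]
        exact h.trans (Subgroup.commutator_mono ih le_rfl)
    obtain ⟨j, hj⟩ := Subgroup.nilpotent_iff_lowerCentralSeries.mp hnil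
    have h2 := h1 j
    rw [hj, le_bot_iff] at h2
    obtain ⟨a, b, hab⟩ := hna
    apply hab
    have h3 : ⁅a, b⁆ ∈ commutator P := by
      rw [commutator_def]
      exact Subgroup.commutator_mem_commutator (Subgroup.mem_top _) (Subgroup.mem_top _)
    rw [h2, Subgroup.mem_bot, commutatorElement_eq_one_iff_mul_comm] at h3
    exact h3
  obtain ⟨u, hu, hu3⟩ : ∃ u ∈ commutator P, u ∉ G3 := by
    by_contra hcon
    push Not at hcon
    exact hnot hcon
  set q := QuotientGroup.mk' G3 with hq
  set A := (commutator P).map q with hA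
  have hcent : ∀ x ∈ A, ∀ y : P ⧸ G3, x * y = y * x := by
    rintro _ ⟨x, hx, rfl⟩ y
    obtain ⟨g, rfl⟩ := QuotientGroup.mk_surjective y
    exact (comm_mem_iff G3 x g).mp (Subgroup.commutator_mem_commutator hx (Subgroup.mem_top _))
  let _ : CommGroup A := { (inferInstance : Group A) with
    mul_comm := fun x y => Subtype.ext (hcent x x.2 y) }
  let φ : A →* A := powMonoidHom p
  have hsurj : Function.Surjective φ := by
    intro z
    have h1 : (z : P ⧸ G3) ∈ (φ.range).map A.subtype := by
      have h2 : A ≤ (M2 P p).map q := Subgroup.map_mono hle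
      have h3 := h2 z.2
      have h4 : (M2 P p).map q ≤ (φ.range).map A.subtype := by
        unfold M2
        rw [Subgroup.map_sup, MonoidHom.map_closure]
        apply sup_le
        · rintro _ ⟨x, hx, rfl⟩
          have : q x = 1 := (QuotientGroup.eq_one_iff x).mpr hx
          rw [this]
          exact one_mem _
        · rw [Subgroup.closure_le]
          rintro _ ⟨_, ⟨y, hy, rfl⟩, rfl⟩
          refine ⟨φ ⟨q y, Subgroup.mem_map_of_mem q hy⟩, ⟨_, rfl⟩, ?_⟩
          rw [map_pow]
          rfl
      exact h4 h3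
    obtain ⟨w, ⟨v, hv⟩, hw⟩ := h1
    exact ⟨v, by rw [hv]; exact Subtype.ext hw⟩
  have hinj : Function.Injective φ := Finite.injective_iff_surjective.mpr hsurj
  -- a contradiction from the element `u`
  have hpA : IsPGroup p A := (hP.to_quotient G3).to_subgroup A
  let a : A := ⟨q u, Subgroup.mem_map_of_mem q hu⟩
  obtain ⟨k, hk⟩ := hpA a
  have hiter : ∀ k : ℕ, ∀ x : A, x ^ p ^ k = 1 → x = 1 := by
    intro k
    induction k with
    | zero => intro x hx; rwa [pow_zero, pow_one] at hx
    | succ k ih =>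
      intro x hx
      apply ih
      apply hinj
      change (x ^ p ^ k) ^ p = (1 : A) ^ p
      rw [← pow_mul, ← pow_succ, hx, one_pow]
  have h5 := hiter k a hk
  have h6 : q u = 1 := congrArg Subtype.val h5
  exact hu3 ((QuotientGroup.eq_one_iff u).mp h6)

/-- The bound for two-generator groups. -/
theorem two_gen_bound [Finite P] {p : ℕ} [Fact p.Prime] (hP : IsPGroup p P)
    (hidx : (frattini P).index = p ^ 2) (hna : ∃ a b : P, a * b ≠ b * a) :
    T (P × P) ≤ 2 * p + 1 := by
  have hp := (Fact.out : p.Prime)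
  have hMn : (M2 P p).Normal := M2_normal p
  have h1 := gen_bound hP (M2 P p) (commutator P) (M2_inv p) commutator_inv (not_le_M2 hP hna)
  obtain ⟨a, b, hab⟩ := exists_two_gen hidx
  have h2 : (M2 P p).relIndex (commutator P) ≤ p := by
    apply relIndex_le_of_pow hp.pos (M2 P p) (commutator P) ⁅a, b⁆ _ (commutator_le_sup hab)
    refine Subgroup.mem_sup_right (Subgroup.subset_closure ⟨⁅a, b⁆, ?_, rfl⟩)
    rw [commutator_def]
    exact Subgroup.commutator_mem_commutator (Subgroup.mem_top _) (Subgroup.mem_top _)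
  have h3 : ((frattini P).index - 1) / (p - 1) = p + 1 := by
    rw [hidx]
    have h4 : p ^ 2 - 1 = (p - 1) * (p + 1) := by
      obtain ⟨r, hr⟩ : ∃ r, p = r + 1 := ⟨p - 1, by have := hp.pos; omega⟩
      rw [hr, Nat.add_sub_cancel]
      have : (r + 1) ^ 2 = r * (r + 1 + 1) + 1 := by ring
      rw [this, Nat.add_sub_cancel]
    rw [h4]
    exact Nat.mul_div_cancel_left _ (by have := hp.one_lt; omega)
  omega

end Pool.Agent.Helper60.PCP
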